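import Pool.Agent.R510.LS.Geo

open MeasureTheory Set Filter Topology Metric
open scoped ContDiff RealInnerProductSpace

noncomputable section
namespace Pool.Agent.R510.LS

lemma finrank_E : Module.finrank ℝ E = 5 := by simp

/-- change of variables for the rescaling maps -/
lemma int_z (k : ℕ) (G : E → ℝ) : ∫ x, G (z k x) = (r k) ^ 5 * ∫ x, G x := by
  have h1 : ∫ x, G (z k x) = ∫ x, G ((r k)⁻¹ • x) := by
    have := integral_sub_right_eq_self (μ := (volume : Measure E)) (fun x : E => G ((r k)⁻¹ • x)) (c k)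
    exact this
  rw [h1, Measure.integral_comp_inv_smul_of_nonneg volume G (r_pos k).le, finrank_E, smul_eq_mul]

lemma integrable_z {A : Type*} [NormedAddCommGroup A] (k : ℕ) {G : E → A} (hG : Integrable G) :
    Integrable fun x => G (z k x) :=
  (hG.comp_smul (inv_ne_zero (r_pos k).ne')).comp_sub_right (c k)

lemma Fk_int (k : ℕ) : Integrable (Fk k) := integrable_z k F_int
lemma fk_int (k : ℕ) : Integrable (fk k) := ((integrable_z k dv_int).const_mul _).neg

lemma z_cont (k : ℕ) : Continuous (z k) := by unfold z; fun_prop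

lemma Fk_meas (k : ℕ) : Measurable (Fk k) := (F_meas 1).comp (z_cont k).measurable
lemma fk_meas (k : ℕ) : Measurable (fk k) :=
  (((dv_meas 1).comp (z_cont k).measurable).const_mul _).neg

lemma Fk_norm (k : ℕ) : ∫ x, ‖Fk k x‖ = (r k) ^ 5 * ∫ x, ‖F 1 x‖ := int_z k fun x => ‖F 1 x‖

lemma fk_norm (k : ℕ) : ∫ x, ‖fk k x‖ = (r k) ^ 4 * ∫ x, ‖dv 1 x‖ := by
  have h1 : ∀ x, ‖fk k x‖ = (r k)⁻¹ * ‖dv 1 (z k x)‖ := by
    intro x
    unfold fk
    rw [norm_neg, norm_mul, norm_inv, Real.norm_eq_abs, abs_of_pos (r_pos k)]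
  simp_rw [h1]
  rw [integral_const_mul, int_z k fun x => ‖dv 1 x‖]
  have := (r_pos k).ne'
  field_simp

lemma sum_quarter : Summable fun k : ℕ => ((1:ℝ)/4) ^ k :=
  summable_geometric_of_lt_one (by norm_num) (by norm_num)

lemma pow_r_le (k n : ℕ) (hn : n ≠ 0) : (r k) ^ n ≤ (1/4) ^ k :=
  (pow_le_of_le_one (r_pos k).le (r_le_one k) hn).trans (r_le k)

lemma Fk_summable : Summable fun k => ∫ x, ‖Fk k x‖ := by
  refine Summable.of_nonneg_of_le (fun k => integral_nonneg fun x => norm_nonneg _) (fun k => ?_)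
    (sum_quarter.mul_right (∫ x, ‖F 1 x‖))
  rw [Fk_norm]
  exact mul_le_mul_of_nonneg_right (pow_r_le k 5 (by norm_num)) (integral_nonneg fun x => norm_nonneg _)

lemma fk_summable : Summable fun k => ∫ x, ‖fk k x‖ := by
  refine Summable.of_nonneg_of_le (fun k => integral_nonneg fun x => norm_nonneg _) (fun k => ?_)
    (sum_quarter.mul_right (∫ x, ‖dv 1 x‖))
  rw [fk_norm]
  exact mul_le_mul_of_nonneg_right (pow_r_le k 4 (by norm_num)) (integral_nonneg fun x => norm_nonneg _)

/-- integrability of a sum -/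
lemma int_tsum {A : Type*} [NormedAddCommGroup A] [MeasurableSpace A] [BorelSpace A]
    [SecondCountableTopology A] {G : ℕ → E → A}
    (hm : Measurable fun x => ∑' k, G k x)
    (hi : ∀ k, Integrable (G k)) (hs : Summable fun k => ∫ x, ‖G k x‖) :
    Integrable fun x => ∑' k, G k x := by
  refine ⟨hm.aestronglyMeasurable, ?_⟩
  have h1 : ∫⁻ x, ‖∑' k, G k x‖ₑ ≤ ∫⁻ x, ∑' k, ‖G k x‖ₑ :=
    lintegral_mono fun x => enorm_tsum_le_tsum_enorm
  have h2 : ∫⁻ x, ∑' k, ‖G k x‖ₑ = ∑' k, ∫⁻ x, ‖G k x‖ₑ :=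
    lintegral_tsum fun k => (hi k).1.enorm
  have h3 : ∀ k, ∫⁻ x, ‖G k x‖ₑ = ENNReal.ofReal (∫ x, ‖G k x‖) := fun k =>
    (ofReal_integral_norm_eq_lintegral_enorm (hi k)).symm
  unfold HasFiniteIntegral
  refine h1.trans_lt ?_
  rw [h2]
  simp_rw [h3]
  exact lt_of_le_of_ne le_top hs.tsum_ofReal_ne_top

lemma tsum_meas {A : Type*} [NormedAddCommGroup A] [MeasurableSpace A] [BorelSpace A]
    [SecondCountableTopology A] {G : ℕ → E → A} (hm : ∀ k, Measurable (G k))
    (h0 : ∀ k x, h k / 4 ≤ ‖x - c k‖ → G k x = 0) : Measurable fun x => ∑' k, G k x := by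
  have h1 : ∀ n, Measurable fun x => ∑ k ∈ Finset.range n, G k x := fun n =>
    Finset.measurable_sum _ fun k _ => hm k
  refine measurable_of_tendsto_metrizable h1 ?_
  rw [tendsto_pi_nhds]
  intro x
  obtain ⟨k, hk⟩ := one_active x
  apply tendsto_const_nhds.congr'
  filter_upwards [eventually_gt_atTop k] with n hn
  rw [tsum_eq_single k fun j hj => h0 j x (hk j hj), Finset.sum_eq_single k]
  · intro j _ hj; exact h0 j x (hk j hj)
  · intro hc; exact absurd (Finset.mem_range.mpr hn) hc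

lemma f_meas : Measurable f := tsum_meas fk_meas fun _ _ => fk_zero
lemma Fu_meas : Measurable Fu := tsum_meas Fk_meas fun _ _ => Fk_zero
lemma f_int : Integrable f := int_tsum f_meas fk_int fk_summable
lemma Fu_int : Integrable Fu := int_tsum Fu_meas Fk_int Fk_summable

/-- integration by parts for one block -/
lemma ibp_k (k : ℕ) {psi : E → ℝ} {C : NNReal} (hp : LipschitzWith C psi) :
    ∫ x, fderiv ℝ psi x (Fk k x) = ∫ x, fk k x * psi x := by
  have hr := r_pos k
  set φ : E → ℝ := fun y => psi (c k + r k • y) with hφ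
  have hz : ∀ x, c k + r k • z k x = x := by
    intro x; unfold z; rw [smul_smul, mul_inv_cancel₀ hr.ne', one_smul]; abel
  have hφl : ∃ C', LipschitzWith C' φ := by
    refine ⟨C * (r k).toNNReal, LipschitzWith.of_dist_le_mul fun x y => ?_⟩
    have := hp.dist_le_mul (c k + r k • x) (c k + r k • y)
    refine this.trans (le_of_eq ?_)
    rw [dist_add_left, dist_smul₀, Real.norm_eq_abs, abs_of_pos hr, NNReal.coe_mul,
      Real.coe_toNNReal _ hr.le, mul_assoc]
  obtain ⟨C', hC'⟩ := hφl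
  have h1 : ∀ᵐ x, fderiv ℝ psi x (Fk k x) = (fun y => (r k)⁻¹ * fderiv ℝ φ y (F 1 y)) (z k x) := by
    filter_upwards [hp.ae_differentiableAt] with x hx
    have hd : HasFDerivAt φ ((fderiv ℝ psi x).comp (r k • ContinuousLinearMap.id ℝ E)) (z k x) := by
      have ha : HasFDerivAt (fun y : E => c k + r k • y) (r k • ContinuousLinearMap.id ℝ E) (z k x) :=
        ((hasFDerivAt_id (z k x)).const_smul (r k)).const_add (c k)
      have hb : HasFDerivAt psi (fderiv ℝ psi x) (c k + r k • z k x) := by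
        rw [hz]; exact hx.hasFDerivAt
      exact hb.comp (z k x) ha
    simp only [hd.fderiv]
    unfold Fk
    simp only [ContinuousLinearMap.comp_smul, ContinuousLinearMap.smul_apply, ContinuousLinearMap.comp_id,
      smul_eq_mul]
    field_simp
  have h1' : ∫ x, fderiv ℝ psi x (Fk k x) = (r k) ^ 5 * ∫ y, (r k)⁻¹ * fderiv ℝ φ y (F 1 y) :=
    (integral_congr_ae h1).trans (int_z k (fun y => (r k)⁻¹ * fderiv ℝ φ y (F 1 y)))
  rw [h1', integral_const_mul, ibp hC']
  have h2 : ∀ x, fk k x * psi x = (fun y => -((r k)⁻¹ * (dv 1 y * φ y))) (z k x) := by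
    intro x
    simp only [hφ, hz, fk]
    ring
  have h3 : ∫ x, fk k x * psi x = (r k) ^ 5 * ∫ x, -((r k)⁻¹ * (dv 1 x * φ x)) :=
    (integral_congr_ae (.of_forall h2)).trans (int_z k (fun y => -((r k)⁻¹ * (dv 1 y * φ y))))
  rw [h3, integral_neg, integral_const_mul]
  ring

/-- integration by parts for the glued function -/
theorem ibp_all {psi : E → ℝ} {C : NNReal} (hp : LipschitzWith C psi) {K : ℝ} (hK : ∀ x, |psi x| ≤ K) :
    ∫ x, fderiv ℝ psi x (Fu x) = ∫ x, f x * psi x := by
  have hK0 : 0 ≤ K := (abs_nonneg _).trans (hK 0)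
  have hm1 : ∀ k, AEStronglyMeasurable (fun x => fderiv ℝ psi x (Fk k x)) := by
    intro k
    have h1 : Measurable fun x => fderiv ℝ psi x := measurable_fderiv ℝ psi
    exact ((isBoundedBilinearMap_apply (𝕜 := ℝ) (E := E) (F := ℝ)).continuous.measurable.comp
          (h1.prodMk (Fk_meas k))).aestronglyMeasurable
  have hb1 : ∀ k x, ‖fderiv ℝ psi x (Fk k x)‖ ≤ C * ‖Fk k x‖ := fun k x =>
    ((fderiv ℝ psi x).le_opNorm _).trans
      (mul_le_mul_of_nonneg_right (norm_fderiv_le_of_lipschitz ℝ hp) (norm_nonneg _))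
  have hi1 : ∀ k, Integrable fun x => fderiv ℝ psi x (Fk k x) := fun k =>
    ((Fk_int k).norm.const_mul (C:ℝ)).mono' (hm1 k) (.of_forall fun x => hb1 k x)
  have hs1 : Summable fun k => ∫ x, ‖fderiv ℝ psi x (Fk k x)‖ := by
    refine Summable.of_nonneg_of_le (fun k => integral_nonneg fun x => norm_nonneg _) (fun k => ?_)
      (Fk_summable.mul_left (C:ℝ))
    rw [← integral_const_mul]
    exact integral_mono (hi1 k).norm ((Fk_int k).norm.const_mul _) fun x => hb1 k x
  have hb2 : ∀ k x, ‖fk k x * psi x‖ ≤ K * ‖fk k x‖ := fun k x => by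
    rw [norm_mul, mul_comm]
    exact mul_le_mul_of_nonneg_right (hK x) (norm_nonneg _)
  have hi2 : ∀ k, Integrable fun x => fk k x * psi x := fun k =>
    ((fk_int k).norm.const_mul K).mono' ((fk_meas k).mul hp.continuous.measurable).aestronglyMeasurable
      (.of_forall fun x => hb2 k x)
  have hs2 : Summable fun k => ∫ x, ‖fk k x * psi x‖ := by
    refine Summable.of_nonneg_of_le (fun k => integral_nonneg fun x => norm_nonneg _) (fun k => ?_)
      (fk_summable.mul_left K)
    rw [← integral_const_mul]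
    exact integral_mono (hi2 k).norm ((fk_int k).norm.const_mul _) fun x => hb2 k x
  have e1 := hasSum_integral_of_summable_integral_norm hi1 hs1
  have e2 := hasSum_integral_of_summable_integral_norm hi2 hs2
  have g1 : ∀ x, ∑' k, fderiv ℝ psi x (Fk k x) = fderiv ℝ psi x (Fu x) := by
    intro x
    obtain ⟨k, hk⟩ := one_active x
    rw [Fu_eq hk, tsum_eq_single k]
    intro j hj
    rw [Fk_zero (hk j hj), map_zero]
  have g2 : ∀ x, ∑' k, fk k x * psi x = f x * psi x := by
    intro x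
    obtain ⟨k, hk⟩ := one_active x
    rw [f_eq hk, tsum_eq_single k]
    intro j hj
    rw [fk_zero (hk j hj), zero_mul]
  simp_rw [g1] at e1
  simp_rw [g2] at e2
  have : (fun k => ∫ x, fderiv ℝ psi x (Fk k x)) = fun k => ∫ x, fk k x * psi x :=
    funext fun k => ibp_k k hp
  rw [this] at e1
  exact e1.unique e2

end Pool.Agent.R510.LS
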