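import Mathlib

open MeasureTheory Set Filter Topology Metric
open scoped ContDiff

noncomputable section
namespace Pool.Agent.R510.LS

/-- The standard bump on the line: equal to `1` on `[-1/2,1/2]`, supported in `(-1,1)`. -/
def B : ContDiffBump (0 : ℝ) := ⟨1/2, 1, by norm_num, by norm_num⟩

lemma B_nonneg (t : ℝ) : 0 ≤ B t := B.nonneg
lemma B_le_one (t : ℝ) : B t ≤ 1 := B.le_one
lemma B_zero {t : ℝ} (h : 1 ≤ |t|) : B t = 0 := by
  apply B.zero_of_le_dist
  simpa [B, Real.dist_eq] using h
lemma B_one {t : ℝ} (h : |t| ≤ 1/2) : B t = 1 := by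
  apply B.one_of_mem_closedBall
  simpa [B, Real.dist_eq] using h
lemma B_smooth : ContDiff ℝ ∞ (fun t : ℝ => B t) := B.contDiff

/-- The slope profile along the segment direction. -/
def eta (s : ℝ) : ℝ := B s - B (s - 3) / 2 - B (s + 3) / 2

lemma eta_smooth : ContDiff ℝ ∞ eta := by
  unfold eta
  have h1 : ContDiff ℝ ∞ (fun s : ℝ => B (s - 3)) := B_smooth.comp (contDiff_id.sub contDiff_const)
  have h2 : ContDiff ℝ ∞ (fun s : ℝ => B (s + 3)) := B_smooth.comp (contDiff_id.add contDiff_const)
  exact (B_smooth.sub (h1.div_const _)).sub (h2.div_const _)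

lemma abs_eta_le (s : ℝ) : |eta s| ≤ 1 := by
  unfold eta
  by_cases h : |s| < 1
  · have h1 : B (s - 3) = 0 := B_zero (by rw [abs_lt] at h; rw [le_abs]; right; linarith)
    have h2 : B (s + 3) = 0 := B_zero (by rw [abs_lt] at h; rw [le_abs]; left; linarith)
    rw [h1, h2, abs_le]
    constructor <;> linarith [B_nonneg s, B_le_one s]
  · rw [B_zero (not_lt.mp h), abs_le]
    constructor <;> linarith [B_nonneg (s-3), B_le_one (s-3), B_nonneg (s+3), B_le_one (s+3)]

lemma eta_zero {s : ℝ} (h : 4 ≤ |s|) : eta s = 0 := by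
  unfold eta
  have h0 : B s = 0 := B_zero (by linarith)
  have h1 : B (s - 3) = 0 := B_zero (by
    rcases le_abs.mp h with h | h
    · rw [le_abs]; left; linarith
    · rw [le_abs]; right; linarith)
  have h2 : B (s + 3) = 0 := B_zero (by
    rcases le_abs.mp h with h | h
    · rw [le_abs]; left; linarith
    · rw [le_abs]; right; linarith)
  rw [h0, h1, h2]; norm_num

lemma eta_one {s : ℝ} (h : |s| ≤ 1/2) : eta s = 1 := by
  unfold eta
  have h' := abs_le.mp h
  have h1 : B (s - 3) = 0 := B_zero (by rw [le_abs]; right; linarith)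
  have h2 : B (s + 3) = 0 := B_zero (by rw [le_abs]; left; linarith)
  rw [B_one h, h1, h2]; norm_num

/-- The profile along the segment direction. -/
def g (s : ℝ) : ℝ := ∫ t in (-5 : ℝ)..s, eta t

lemma g_hasDerivAt (s : ℝ) : HasDerivAt g (eta s) s :=
  intervalIntegral.integral_hasDerivAt_right
    (eta_smooth.continuous.intervalIntegrable _ _)
    (eta_smooth.continuous.stronglyMeasurableAtFilter _ _)
    eta_smooth.continuous.continuousAt

lemma g_smooth : ContDiff ℝ ∞ g := by
  rw [contDiff_infty_iff_deriv]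
  refine ⟨fun s => (g_hasDerivAt s).differentiableAt, ?_⟩
  have : deriv g = eta := funext fun s => (g_hasDerivAt s).deriv
  rw [this]; exact eta_smooth

lemma eta_compact : HasCompactSupport eta := by
  apply HasCompactSupport.intro (isCompact_Icc (a := (-4:ℝ)) (b := 4))
  intro x hx
  apply eta_zero
  by_contra h
  push Not at h
  exact hx ⟨by linarith [(abs_lt.mp h).1], by linarith [(abs_lt.mp h).2]⟩

lemma eta_integral : ∫ t, eta t = 0 := by
  have hB : Integrable (fun t : ℝ => B t) := B.continuous.integrable_of_hasCompactSupport B.hasCompactSupport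
  have h1 : Integrable (fun t : ℝ => B (t - 3) / 2) := (hB.comp_sub_right 3).div_const 2
  have h2 : Integrable (fun t : ℝ => B (t + 3) / 2) := (hB.comp_add_right 3).div_const 2
  have e1 : ∫ t : ℝ, B (t - 3) / 2 = (∫ t : ℝ, B t) / 2 := by
    rw [integral_div, integral_sub_right_eq_self (fun t : ℝ => B t) 3]
  have e2 : ∫ t : ℝ, B (t + 3) / 2 = (∫ t : ℝ, B t) / 2 := by
    rw [integral_div, integral_add_right_eq_self (fun t : ℝ => B t) 3]
  have : ∫ t, eta t = (∫ t : ℝ, B t) - (∫ t : ℝ, B (t - 3) / 2) - ∫ t : ℝ, B (t + 3) / 2 := by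
    have h3 : Integrable (fun t : ℝ => B t - B (t - 3) / 2) := hB.sub h1
    unfold eta
    rw [integral_sub h3 h2, integral_sub hB h1]
  rw [this, e1, e2]; ring

lemma g_zero {s : ℝ} (h : 4 ≤ |s|) : g s = 0 := by
  unfold g
  rcases le_abs.mp h with h | h
  · rw [intervalIntegral.integral_eq_integral_of_support_subset, eta_integral]
    intro t ht
    by_contra hc
    apply ht
    apply eta_zero
    rw [mem_Ioc, not_and_or] at hc
    rcases hc with hc | hc
    · rw [le_abs]; right; linarith
    · rw [le_abs]; left; linarith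
  · have : ∀ t ∈ uIcc (-5:ℝ) s, eta t = 0 := by
      intro t ht
      apply eta_zero
      rw [le_abs]; right
      have := ht.2
      rcases le_total (-5:ℝ) s with h5 | h5
      · rw [sup_eq_right.mpr h5] at this; linarith
      · rw [sup_eq_left.mpr h5] at this; linarith
    rw [intervalIntegral.integral_congr (g := fun _ => (0:ℝ)) this]
    simp

lemma abs_g_le (s : ℝ) : |g s| ≤ 9 := by
  by_cases h : 4 ≤ |s|
  · rw [g_zero h]; norm_num
  · push Not at h
    have := intervalIntegral.norm_integral_le_of_norm_le_const (a := (-5:ℝ)) (b := s) (f := eta) (C := 1)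
      (fun x _ => by rw [Real.norm_eq_abs]; exact abs_eta_le x)
    rw [Real.norm_eq_abs] at this
    have h' := abs_lt.mp h
    have h2 : |s - -5| ≤ 9 := by rw [abs_le]; constructor <;> linarith
    unfold g
    linarith

lemma g_seg : g (1/2) - g (-1/2) = 1 := by
  unfold g
  rw [intervalIntegral.integral_interval_sub_left
    (eta_smooth.continuous.intervalIntegrable _ _) (eta_smooth.continuous.intervalIntegrable _ _)]
  have : ∀ t ∈ uIcc (-1/2:ℝ) (1/2), eta t = 1 := by
    intro t ht
    rw [uIcc_of_le (by norm_num)] at ht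
    apply eta_one
    rw [abs_le]; constructor <;> linarith [ht.1, ht.2]
  rw [intervalIntegral.integral_congr (g := fun _ => (1:ℝ)) this]
  norm_num

/-- The transversal profile (as a function of the squared distance). -/
def kap (t : ℝ) : ℝ := (1 - t) * B t
def kapd (t : ℝ) : ℝ := - B t + (1 - t) * deriv (fun t : ℝ => B t) t

lemma B_diff (t : ℝ) : DifferentiableAt ℝ (fun t : ℝ => B t) t :=
  (B_smooth.differentiable (by simp)) t

lemma kap_hasDerivAt (t : ℝ) : HasDerivAt kap (kapd t) t := by
  have h1 : HasDerivAt (fun t : ℝ => 1 - t) (-1) t := by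
    simpa using (hasDerivAt_id t).const_sub 1
  have h := h1.mul (B_diff t).hasDerivAt
  refine h.congr_deriv ?_
  unfold kapd; ring

lemma kap_smooth : ContDiff ℝ ∞ kap := (contDiff_const.sub contDiff_id).mul B_smooth
lemma kapd_smooth : ContDiff ℝ ∞ kapd := by
  have h : ContDiff ℝ ∞ (deriv (fun t : ℝ => B t)) := (contDiff_infty_iff_deriv.mp B_smooth).2
  exact B_smooth.neg.add ((contDiff_const.sub contDiff_id).mul h)

lemma kap_zero {t : ℝ} (h : 1 ≤ t) : kap t = 0 := by
  unfold kap; rw [B_zero (by rw [le_abs]; left; exact h)]; ring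

lemma derivB_zero {t : ℝ} (h : 1 < |t|) : deriv (fun t : ℝ => B t) t = 0 := by
  have : (fun t : ℝ => B t) =ᶠ[𝓝 t] fun _ => 0 := by
    have ho : IsOpen {t : ℝ | 1 < |t|} := isOpen_lt continuous_const continuous_abs
    filter_upwards [ho.mem_nhds h] with s hs
    exact B_zero (le_of_lt hs)
  rw [this.deriv_eq]; simp

lemma kapd_zero {t : ℝ} (h : 1 ≤ t) : kapd t = 0 := by
  unfold kapd
  rw [B_zero (by rw [le_abs]; left; exact h)]
  rcases h.eq_or_lt with h | h
  · rw [← h]; ring
  · rw [derivB_zero (by rw [lt_abs]; left; exact h)]; ring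

lemma kap_nonneg {t : ℝ} (h : t ≤ 1) : 0 ≤ kap t := mul_nonneg (by linarith) (B_nonneg t)
lemma kap_le {t : ℝ} (h : t ≤ 1) : kap t ≤ 1 - t := by
  unfold kap
  nlinarith [B_le_one t, B_nonneg t]

lemma kapd_bdd : ∃ L : ℝ, 0 ≤ L ∧ ∀ t, |kapd t| ≤ L := by
  have hc : HasCompactSupport kapd := by
    apply HasCompactSupport.intro (isCompact_Icc (a := (-1:ℝ)) (b := 1))
    intro x hx
    have : 1 < |x| := by
      by_contra h
      push Not at h
      exact hx ⟨(abs_le.mp h).1, (abs_le.mp h).2⟩
    unfold kapd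
    rw [B_zero this.le, derivB_zero this]; ring
  obtain ⟨C, hC⟩ := kapd_smooth.continuous.bounded_above_of_compact_support hc
  exact ⟨C, (norm_nonneg _).trans (hC 0), hC⟩

end Pool.Agent.R510.LS
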