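import Pool.Agent.R510.LS.Block

open MeasureTheory Set Filter Topology Metric
open scoped ContDiff RealInnerProductSpace

noncomputable section
namespace Pool.Agent.R510.LS

/-- Five-dimensional Euclidean space. -/
abbrev E := EuclideanSpace ℝ (Fin 5)

/-- The direction of the segments. -/
def e0 : E := EuclideanSpace.single 0 1

lemma norm_e0 : ‖e0‖ = 1 := by simp [e0]
lemma inner_e0 (x : E) : ⟪e0, x⟫ = x 0 := by
  simp [e0, EuclideanSpace.inner_single_left]
lemma inner_e0_self : ⟪e0, e0⟫ = (1:ℝ) := by rw [real_inner_self_eq_norm_sq, norm_e0]; norm_num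

/-- squared distance to the axis -/
def N (x : E) : ℝ := ‖x‖ ^ 2 - (⟪e0, x⟫) ^ 2
/-- component orthogonal to the axis -/
def pr (x : E) : E := x - (⟪e0, x⟫ : ℝ) • e0

lemma N_eq (x : E) : N x = ∑ i : Fin 4, (x i.succ) ^ 2 := by
  unfold N
  rw [EuclideanSpace.real_norm_sq_eq, inner_e0, Fin.sum_univ_succ]
  ring

lemma N_nonneg (x : E) : 0 ≤ N x := by
  rw [N_eq]; exact Finset.sum_nonneg fun i _ => sq_nonneg _

lemma coord_le_N (x : E) (i : Fin 4) : (x i.succ) ^ 2 ≤ N x := by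
  rw [N_eq]
  exact Finset.single_le_sum (f := fun i : Fin 4 => (x i.succ) ^ 2) (fun i _ => sq_nonneg _) (Finset.mem_univ i)

lemma N_le (x : E) : N x ≤ ‖x‖ ^ 2 := by
  unfold N; nlinarith [sq_nonneg (⟪e0, x⟫ : ℝ)]

lemma inner_pr_e0 (x : E) : ⟪e0, pr x⟫ = (0:ℝ) := by
  unfold pr
  rw [inner_sub_right, inner_smul_right, inner_e0_self]; ring

lemma norm_pr_sq (x : E) : ‖pr x‖ ^ 2 = N x := by
  unfold pr N
  rw [norm_sub_sq_real, inner_smul_right, norm_smul, norm_e0, real_inner_comm, Real.norm_eq_abs,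
    mul_one, sq_abs]
  ring

/-- A bound for the derivative of the transversal profile. -/
def L : ℝ := kapd_bdd.choose
lemma L_nonneg : 0 ≤ L := kapd_bdd.choose_spec.1
lemma kapd_le (t : ℝ) : |kapd t| ≤ L := kapd_bdd.choose_spec.2 t

/-- squared radius of the block -/
def S : ℝ := 648 * L ^ 2 + 1
lemma S_ge : 1 ≤ S := by unfold S; nlinarith [sq_nonneg L]
lemma S_pos : 0 < S := by linarith [S_ge]

/-- The block function. -/
def u0 (x : E) : ℝ := g (⟪e0, x⟫) * kap (N x / S)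

/-- The gradient of the block function. -/
def P (x : E) : E :=
  (eta (⟪e0, x⟫) * kap (N x / S)) • e0 + (g (⟪e0, x⟫) * (kapd (N x / S) * (2 / S))) • pr x

lemma N_hasFDerivAt (x : E) : HasFDerivAt N ((2:ℝ) • innerSL ℝ (pr x)) x := by
  have h1 : HasFDerivAt (fun y : E => ‖y‖ ^ 2) ((2:ℝ) • innerSL ℝ x) x := by
    have := (hasStrictFDerivAt_norm_sq x).hasFDerivAt
    refine this.congr_fderiv ?_
    ext v
    simp [two_mul]
  have h2 : HasFDerivAt (fun y : E => (⟪e0, y⟫ : ℝ)) (innerSL ℝ e0) x := (innerSL ℝ e0).hasFDerivAt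
  have h3 := h1.sub (h2.pow 2)
  refine h3.congr_fderiv ?_
  ext v
  simp only [pr, ContinuousLinearMap.sub_apply, ContinuousLinearMap.smul_apply, innerSL_apply_apply,
    smul_eq_mul, inner_sub_left, inner_smul_left, RCLike.conj_to_real]
  simp
  ring

lemma u0_hasFDerivAt (x : E) : HasFDerivAt u0 (innerSL ℝ (P x)) x := by
  have h2 : HasFDerivAt (fun y : E => (⟪e0, y⟫ : ℝ)) (innerSL ℝ e0) x := (innerSL ℝ e0).hasFDerivAt
  have hg : HasFDerivAt (fun y : E => g (⟪e0, y⟫)) (eta (⟪e0, x⟫) • innerSL ℝ e0) x :=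
    (g_hasDerivAt _).comp_hasFDerivAt x h2
  have hN : HasFDerivAt (fun y : E => N y / S) ((1/S) • ((2:ℝ) • innerSL ℝ (pr x))) x := by
    have := (N_hasFDerivAt x).const_smul (1/S)
    refine this.congr_of_eventuallyEq (Eventually.of_forall fun y => ?_)
    simp; ring
  have hk : HasFDerivAt (fun y : E => kap (N y / S)) (kapd (N x / S) • ((1/S) • ((2:ℝ) • innerSL ℝ (pr x)))) x :=
    (kap_hasDerivAt _).comp_hasFDerivAt x hN
  have h := hg.mul hk
  refine h.congr_fderiv ?_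
  ext v
  simp only [P, ContinuousLinearMap.add_apply, ContinuousLinearMap.smul_apply, innerSL_apply_apply,
    smul_eq_mul, inner_add_left, inner_smul_left, RCLike.conj_to_real]
  ring

lemma N_smooth : ContDiff ℝ ∞ N := by
  unfold N
  exact (contDiff_norm_sq ℝ).sub ((innerSL ℝ e0).contDiff.pow 2)

lemma pr_smooth : ContDiff ℝ ∞ pr := by
  unfold pr
  exact contDiff_id.sub (((innerSL ℝ e0).contDiff).smul contDiff_const)

lemma P_smooth : ContDiff ℝ ∞ P := by
  have hl : ContDiff ℝ ∞ (fun y : E => (⟪e0, y⟫ : ℝ)) := (innerSL ℝ e0).contDiff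
  have hN : ContDiff ℝ ∞ (fun y : E => N y / S) := N_smooth.div_const _
  exact (((eta_smooth.comp hl).mul (kap_smooth.comp hN)).smul contDiff_const).add
    (((g_smooth.comp hl).mul ((kapd_smooth.comp hN).mul contDiff_const)).smul pr_smooth)

lemma u0_smooth : ContDiff ℝ ∞ u0 := by
  have hl : ContDiff ℝ ∞ (fun y : E => (⟪e0, y⟫ : ℝ)) := (innerSL ℝ e0).contDiff
  have hN : ContDiff ℝ ∞ (fun y : E => N y / S) := N_smooth.div_const _
  exact (g_smooth.comp hl).mul (kap_smooth.comp hN)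

/-- radius of a ball containing the support of the block -/
def rho : ℝ := 16 + S
lemma rho_pos : 0 < rho := by unfold rho; linarith [S_pos]
lemma rho_ge : 17 ≤ rho := by unfold rho; linarith [S_ge]

lemma far {x : E} (h : rho ≤ ‖x‖) : 4 ≤ |(⟪e0, x⟫ : ℝ)| ∨ 1 ≤ N x / S := by
  by_contra hc
  push Not at hc
  obtain ⟨h1, h2⟩ := hc
  rw [div_lt_one S_pos] at h2
  have h3 : (⟪e0, x⟫ : ℝ) ^ 2 ≤ 16 := by
    have := abs_lt.mp h1
    nlinarith
  have h4 : ‖x‖ ^ 2 = N x + (⟪e0, x⟫ : ℝ) ^ 2 := by unfold N; ring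
  have h5 : rho ^ 2 ≤ ‖x‖ ^ 2 := by
    have := rho_pos
    nlinarith
  have h6 : rho ≤ rho ^ 2 := by nlinarith [rho_ge]
  unfold rho at h5 h6
  linarith

lemma P_zero {x : E} (h : rho ≤ ‖x‖) : P x = 0 := by
  unfold P
  rcases far h with h | h
  · rw [eta_zero h, g_zero h]; simp
  · rw [kap_zero h, kapd_zero h]; simp

lemma u0_zero {x : E} (h : rho ≤ ‖x‖) : u0 x = 0 := by
  unfold u0
  rcases far h with h | h
  · rw [g_zero h]; simp
  · rw [kap_zero h]; simp

lemma P_norm_sq (x : E) : ‖P x‖ ^ 2 =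
    (eta (⟪e0, x⟫) * kap (N x / S)) ^ 2 + (g (⟪e0, x⟫) * (kapd (N x / S) * (2 / S))) ^ 2 * N x := by
  unfold P
  rw [norm_add_sq_real, norm_smul, norm_smul, inner_smul_left, inner_smul_right, inner_pr_e0, norm_e0,
    Real.norm_eq_abs, Real.norm_eq_abs, mul_pow, mul_pow, norm_pr_sq, sq_abs, sq_abs]
  simp

/-- the constant in the lower bound of `1 - |Du|²` -/
def c0 : ℝ := 1 / (2 * rho ^ 2)
lemma c0_pos : 0 < c0 := by unfold c0; have := rho_pos; positivity

lemma P_bound {x : E} (hx : ‖x‖ ≤ rho) : c0 * N x ≤ 1 - ‖P x‖ ^ 2 := by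
  have hS := S_pos
  have hρ := rho_pos
  have hN := N_nonneg x
  rw [P_norm_sq]
  rcases le_total 1 (N x / S) with h | h
  · rw [kap_zero h, kapd_zero h]
    have h1 : N x ≤ rho ^ 2 := (N_le x).trans (by nlinarith [norm_nonneg x])
    have h2 : c0 * N x ≤ 1 / 2 := by
      unfold c0
      rw [div_mul_eq_mul_div, one_mul, div_le_iff₀ (by positivity)]
      linarith
    simp; linarith
  · have hk0 := kap_nonneg h
    have hk1 := kap_le h
    have hk2 : kap (N x / S) ≤ 1 := by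
      have : 0 ≤ N x / S := by positivity
      linarith
    have he : eta (⟪e0, x⟫) ^ 2 ≤ 1 := by
      have := abs_eta_le (⟪e0, x⟫ : ℝ)
      rw [← sq_abs]; nlinarith [abs_nonneg (eta (⟪e0, x⟫ : ℝ))]
    have hg : g (⟪e0, x⟫) ^ 2 ≤ 81 := by
      have := abs_g_le (⟪e0, x⟫ : ℝ)
      rw [← sq_abs]; nlinarith [abs_nonneg (g (⟪e0, x⟫ : ℝ))]
    have hL : kapd (N x / S) ^ 2 ≤ L ^ 2 := by
      have := kapd_le (N x / S)
      rw [← sq_abs]; nlinarith [abs_nonneg (kapd (N x / S))]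
    have t1 : (eta (⟪e0, x⟫) * kap (N x / S)) ^ 2 ≤ 1 - N x / S := by
      rw [mul_pow]
      have : kap (N x / S) ^ 2 ≤ 1 - N x / S := by nlinarith
      nlinarith [sq_nonneg (kap (N x / S))]
    have t2 : (g (⟪e0, x⟫) * (kapd (N x / S) * (2 / S))) ^ 2 * N x ≤ (N x / S) * (324 * L ^ 2 / S) := by
      have e1 : (g (⟪e0, x⟫) * (kapd (N x / S) * (2 / S))) ^ 2 * N x =
        (g (⟪e0, x⟫) ^ 2 * kapd (N x / S) ^ 2) * (4 / S ^ 2 * N x) := by
        field_simp
        ring
      have e2 : (N x / S) * (324 * L ^ 2 / S) = (81 * L ^ 2) * (4 / S ^ 2 * N x) := by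
        field_simp
        ring
      rw [e1, e2]
      apply mul_le_mul_of_nonneg_right _ (by positivity)
      exact mul_le_mul hg hL (sq_nonneg _) (by norm_num)
    have t3 : 324 * L ^ 2 / S ≤ 1 / 2 := by
      rw [div_le_div_iff₀ hS (by norm_num)]
      unfold S; nlinarith [sq_nonneg L]
    have t4 : c0 * N x ≤ (N x / S) * (1 / 2) := by
      unfold c0
      have : S ≤ rho ^ 2 := by
        have h6 : rho ≤ rho ^ 2 := by nlinarith [rho_ge]
        have : S ≤ rho := by unfold rho; linarith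
        linarith
      rw [div_mul_eq_mul_div, one_mul, div_mul_div_comm, mul_one,
        div_le_div_iff₀ (by positivity) (by positivity)]
      nlinarith
    have t5 : (N x / S) * (324 * L ^ 2 / S) ≤ (N x / S) * (1 / 2) :=
      mul_le_mul_of_nonneg_left t3 (by positivity)
    linarith

lemma P_norm_le (x : E) : ‖P x‖ ≤ 1 := by
  rcases le_total rho ‖x‖ with h | h
  · rw [P_zero h]; simp
  · have h1 := P_bound h
    have h2 : 0 ≤ c0 * N x := mul_nonneg c0_pos.le (N_nonneg x)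
    nlinarith [norm_nonneg (P x)]

lemma u0_lip : LipschitzWith 1 u0 := by
  apply lipschitzWith_of_nnnorm_fderiv_le (𝕜 := ℝ) (fun x => (u0_hasFDerivAt x).differentiableAt)
  intro x
  rw [(u0_hasFDerivAt x).fderiv, ← NNReal.coe_le_coe, coe_nnnorm, innerSL_apply_norm]
  exact P_norm_le x

lemma kap_at_zero : kap 0 = 1 := by
  unfold kap; rw [B_one (by norm_num)]; norm_num

lemma u0_axis (t : ℝ) : u0 (t • e0) = g t := by
  unfold u0 N
  rw [inner_smul_right, inner_e0_self, norm_smul, norm_e0, Real.norm_eq_abs]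
  simp [kap_at_zero]

end Pool.Agent.R510.LS
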