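import Mathlib

open MeasureTheory Set Filter Topology Metric

noncomputable section
namespace Pool.Agent.R510.LS

/-- The distance `d_{Ω̄}(x,y)`: infimum of the lengths of the piecewise affine paths
`p 0 = x, p 1, …, p n = y` whose inner vertices and open pieces lie in `Ω`
(`⊤` if there is none). -/
def dOm {m : ℕ} (Ω : Set (EuclideanSpace ℝ (Fin m))) (x y : EuclideanSpace ℝ (Fin m)) : ENNReal :=
  ⨅ (n : ℕ) (p : ℕ → EuclideanSpace ℝ (Fin m))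
    (_ : p 0 = x ∧ p n = y ∧ (∀ i, 0 < i → i < n → p i ∈ Ω) ∧
      ∀ i, i < n → openSegment ℝ (p i) (p (i + 1)) ⊆ Ω),
    ∑ i ∈ Finset.range n, edist (p i) (p (i + 1))

/-- `φ ∈ 𝒮(∂Ω)`. -/
def IsBoundaryDatum {m : ℕ} (Ω : Set (EuclideanSpace ℝ (Fin m)))
    (φ : EuclideanSpace ℝ (Fin m) → ℝ) : Prop :=
  ContinuousOn φ (frontier Ω) ∧ ∀ x ∈ frontier Ω, ∀ y ∈ frontier Ω, x ≠ y →
    ENNReal.ofReal |φ x - φ y| < dOm Ω x y

/-- `v ∈ 𝒴_φ`: the (continuous representative of the) function `v` has `|Dv| ≤ 1`, i.e. it is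
`1`-Lipschitz along every segment contained in `Ω`, and `v = φ` on `∂Ω` in the sense of limits along
straight segments. -/
def IsAdmissible {m : ℕ} (Ω : Set (EuclideanSpace ℝ (Fin m)))
    (φ v : EuclideanSpace ℝ (Fin m) → ℝ) : Prop :=
  (∀ x y, segment ℝ x y ⊆ Ω → |v x - v y| ≤ ‖x - y‖) ∧
  ∀ x ∈ frontier Ω, ∀ w : EuclideanSpace ℝ (Fin m), (∀ t ∈ Ioo (0:ℝ) 1, x + t • w ∈ Ω) →
    Tendsto (fun t : ℝ => v (x + t • w)) (𝓝[>] 0) (𝓝 (φ x))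

/-- The action `I_ρ(v)` for the measure `ρ = f dx`. -/
def action {m : ℕ} (Ω : Set (EuclideanSpace ℝ (Fin m))) (f v : EuclideanSpace ℝ (Fin m) → ℝ) : ℝ :=
  (∫ x in Ω, (1 - √(1 - ‖fderiv ℝ v x‖ ^ 2))) - ∫ x in Ω, f x * v x

/-- The light-segment set of `u`. -/
def lightSet {m : ℕ} (Ω : Set (EuclideanSpace ℝ (Fin m))) (u : EuclideanSpace ℝ (Fin m) → ℝ) :
    Set (EuclideanSpace ℝ (Fin m)) :=
  closure {z | ∃ x ∈ Ω, ∃ y ∈ Ω, x ≠ y ∧ segment ℝ x y ⊆ Ω ∧ |u x - u y| = ‖x - y‖ ∧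
    z ∈ segment ℝ x y}

end Pool.Agent.R510.LS
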