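import Pool.Agent.R510.LS.Main

open MeasureTheory Set Filter Topology Metric
open scoped ContDiff RealInnerProductSpace

noncomputable section
namespace Pool.Agent.R510.LS

lemma r_small (k : ℕ) : r k < 1/32 := by
  have h1 := r_lt_h k
  have h2 := h_le k
  linarith

lemma ends_norm (k : ℕ) {s : ℝ} (hs : |s| ≤ 1/2) : ‖c k + (s * r k) • e0 - c k‖ < h k / 4 := by
  rw [add_sub_cancel_left, norm_smul, norm_e0, mul_one, Real.norm_eq_abs, abs_mul, abs_of_pos (r_pos k)]
  have h1 := r_lt_h k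
  have h2 := r_pos k
  nlinarith

lemma u_ends (k : ℕ) {s : ℝ} (hs : |s| ≤ 1/2) : u (c k + (s * r k) • e0) = r k * g s := by
  have h1 := ends_norm k hs
  obtain ⟨j, hj⟩ := one_active (c k + (s * r k) • e0)
  have hjk : j = k := by
    by_contra hne
    have := hj k (Ne.symm hne)
    linarith
  rw [hjk] at hj
  rw [u_eq hj]
  unfold uk z
  rw [add_sub_cancel_left, smul_smul]
  have : (r k)⁻¹ * (s * r k) = s := by
    have := (r_pos k).ne'
    field_simp
  rw [this, u0_axis]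

lemma ends_in (k : ℕ) {s : ℝ} (hs : |s| ≤ 1/2) : c k + (s * r k) • e0 ∈ Om := by
  rw [mem_ball_zero_iff]
  refine (norm_add_le _ _).trans_lt ?_
  rw [norm_smul, norm_e0, mul_one, Real.norm_eq_abs, abs_mul, abs_of_pos (r_pos k)]
  have h1 := r_small k
  have h2 := norm_c_le k
  have h3 := h_le k
  have h4 := r_pos k
  nlinarith

lemma c_mem (k : ℕ) : c k ∈ {z : E | ∃ x ∈ Om, ∃ y ∈ Om, x ≠ y ∧ segment ℝ x y ⊆ Om ∧ |u x - u y| = ‖x - y‖ ∧
    z ∈ segment ℝ x y} := by
  have hp : |(1/2:ℝ)| ≤ 1/2 := by norm_num [abs_of_pos]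
  have hm : |(-1/2:ℝ)| ≤ 1/2 := by rw [abs_le]; constructor <;> norm_num
  have hr := r_pos k
  have hdiff : (c k + ((1/2) * r k) • e0) - (c k + ((-1/2) * r k) • e0) = r k • e0 := by
    rw [add_sub_add_left_eq_sub, ← sub_smul]; congr 1; ring
  have hn : ‖(c k + ((1/2) * r k) • e0) - (c k + ((-1/2) * r k) • e0)‖ = r k := by
    rw [hdiff, norm_smul, norm_e0, mul_one, Real.norm_eq_abs, abs_of_pos hr]
  refine ⟨c k + ((1/2) * r k) • e0, ends_in k hp, c k + ((-1/2) * r k) • e0, ends_in k hm, ?_, ?_, ?_, ?_⟩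
  · intro he
    rw [he, sub_self, norm_zero] at hn
    linarith
  · exact (convex_ball (0:E) 1).segment_subset (ends_in k hp) (ends_in k hm)
  · rw [u_ends k hp, u_ends k hm, hn, ← mul_sub, g_seg, mul_one, abs_of_pos hr]
  · refine ⟨1/2, 1/2, by norm_num, by norm_num, by norm_num, ?_⟩
    rw [smul_add, smul_add, smul_smul, smul_smul]
    have : (1/2:ℝ) • c k + (1/2 * (1/2 * r k)) • e0 + ((1/2:ℝ) • c k + (1/2 * (-1/2 * r k)) • e0) =
        ((1/2:ℝ) + 1/2) • c k + ((1/2 * (1/2 * r k)) + (1/2 * (-1/2 * r k))) • e0 := by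
      rw [add_smul, add_smul]; abel
    rw [this]
    have e1 : (1/2:ℝ) + 1/2 = 1 := by norm_num
    have e2 : (1/2 * (1/2 * r k)) + (1/2 * (-1/2 * r k)) = 0 := by ring
    rw [e1, e2, one_smul, zero_smul, add_zero]

lemma D_sub : D ⊆ lightSet Om u := by
  intro x hx
  unfold lightSet
  rw [Metric.mem_closure_iff]
  intro ε hε
  obtain ⟨k, hk⟩ := c_dense hx hε
  exact ⟨c k, c_mem k, by rwa [dist_comm]⟩

/-- the embedding of the hyperplane -/
def emb (y : EuclideanSpace ℝ (Fin 4)) : E := WithLp.toLp 2 (Fin.cons 0 y.ofLp)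

lemma emb_isometry : Isometry emb := by
  apply Isometry.of_dist_eq
  intro x y
  rw [EuclideanSpace.dist_eq, EuclideanSpace.dist_eq, Fin.sum_univ_succ]
  simp [emb]

lemma emb_zero : emb 0 = 0 := by
  ext i
  refine Fin.cases ?_ (fun j => ?_) i
  · simp [emb]
  · simp [emb]

lemma emb_mem {y : EuclideanSpace ℝ (Fin 4)} (hy : y ∈ ball (0 : EuclideanSpace ℝ (Fin 4)) (1/2)) :
    emb y ∈ D := by
  constructor
  · simp [emb]
  · have := emb_isometry.dist_eq y 0
    rw [emb_zero, dist_zero_right] at this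
    rw [this]
    exact (mem_ball.mp hy).le

lemma D_pos : 0 < μH[(4:ℝ)] D := by
  have h1 : emb '' (ball (0 : EuclideanSpace ℝ (Fin 4)) (1/2)) ⊆ D := by
    rintro _ ⟨y, hy, rfl⟩; exact emb_mem hy
  refine lt_of_lt_of_le ?_ (measure_mono h1)
  rw [emb_isometry.hausdorffMeasure_image (Or.inl (by norm_num))]
  have e : (4:ℝ) = ((Module.finrank ℝ (EuclideanSpace ℝ (Fin 4)) : ℕ) : ℝ) := by simp
  rw [e]
  exact isOpen_ball.measure_pos _ ⟨0, by simp⟩

lemma light_pos : 0 < μH[(4:ℝ)] (lightSet Om u) := lt_of_lt_of_le D_pos (measure_mono D_sub)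

lemma zero_datum : IsBoundaryDatum Om (0 : E → ℝ) := by
  refine ⟨continuousOn_const, fun x _ y _ hxy => ?_⟩
  have h1 : ENNReal.ofReal |(0 : E → ℝ) x - (0 : E → ℝ) y| = 0 := by simp
  rw [h1]
  have h2 : edist x y ≤ dOm Om x y := by
    unfold dOm
    refine le_iInf fun n => le_iInf fun p => le_iInf fun hp => ?_
    rw [← hp.1, ← hp.2.1]
    exact edist_le_range_sum_edist p n
  exact lt_of_lt_of_le (edist_pos.mpr hxy) h2

end Pool.Agent.R510.LS
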