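import Pool.Agent.R510.LS.Lim

open MeasureTheory Set Filter Topology Metric
open scoped ContDiff RealInnerProductSpace

noncomputable section
namespace Pool.Agent.R510.LS

/-- heights of the centres -/
def h (k : ℕ) : ℝ := (1/4) ^ k / 8
lemma h_pos (k : ℕ) : 0 < h k := by unfold h; positivity
lemma h_succ (k : ℕ) : h (k+1) = h k / 4 := by unfold h; rw [pow_succ]; ring
lemma h_le (k : ℕ) : h k ≤ 1/8 := by
  unfold h
  have : ((1:ℝ)/4) ^ k ≤ 1 := pow_le_one₀ (by norm_num) (by norm_num)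
  linarith
lemma h_anti {j l : ℕ} (hjl : j < l) : h l ≤ h j / 4 := by
  unfold h
  have : ((1:ℝ)/4) ^ l ≤ (1/4) ^ (j+1) := pow_le_pow_of_le_one (by norm_num) (by norm_num) hjl
  rw [pow_succ] at this
  linarith

/-- scales of the blocks -/
def r (k : ℕ) : ℝ := h k / (8 * rho)
lemma r_pos (k : ℕ) : 0 < r k := div_pos (h_pos k) (by linarith [rho_pos])
lemma r_rho (k : ℕ) : r k * (2 * rho) = h k / 4 := by
  unfold r; have := rho_pos; field_simp; ring
lemma r_le (k : ℕ) : r k ≤ (1/4) ^ k := by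
  unfold r h
  have h1 : (0:ℝ) < (1/4) ^ k := by positivity
  rw [div_le_iff₀ (by linarith [rho_pos])]
  nlinarith [rho_ge]
lemma r_le_one (k : ℕ) : r k ≤ 1 := (r_le k).trans (pow_le_one₀ (by norm_num) (by norm_num))
lemma r_lt_h (k : ℕ) : r k < h k / 4 := by
  rw [← r_rho]; nlinarith [r_pos k, rho_ge]

/-- the disc where the segments accumulate -/
def D : Set E := {x | x 0 = 0 ∧ ‖x‖ ≤ 1/2}

instance : Nonempty D := ⟨⟨0, by simp [D]⟩⟩

/-- base points of the centres -/
def d (k : ℕ) : E := (TopologicalSpace.denseSeq D (Nat.unpair k).1 : D)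
lemma d_mem (k : ℕ) : d k ∈ D := (TopologicalSpace.denseSeq D (Nat.unpair k).1 : D).2

/-- centres -/
def c (k : ℕ) : E := d k + h k • e0

lemma e0_zero : e0 0 = 1 := by simp [e0]
lemma c_zero (k : ℕ) : c k 0 = h k := by
  unfold c
  have := (d_mem k).1
  simp [this, e0_zero]

lemma norm_c_le (k : ℕ) : ‖c k‖ ≤ 1/2 + h k := by
  unfold c
  refine (norm_add_le _ _).trans ?_
  rw [norm_smul, norm_e0, Real.norm_eq_abs, abs_of_pos (h_pos k)]
  linarith [(d_mem k).2]

lemma c_dense {x : E} (hx : x ∈ D) {ε : ℝ} (hε : 0 < ε) : ∃ k, dist (c k) x < ε := by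
  obtain ⟨n, hn⟩ := (TopologicalSpace.denseRange_denseSeq D).exists_dist_lt ⟨x, hx⟩ (half_pos hε)
  obtain ⟨j, hj⟩ : ∃ j : ℕ, h j < ε / 2 := by
    obtain ⟨j, hj⟩ := exists_pow_lt_of_lt_one (half_pos hε) (by norm_num : (1/4:ℝ) < 1)
    refine ⟨j, ?_⟩
    unfold h
    have : (0:ℝ) < (1/4) ^ j := by positivity
    linarith
  refine ⟨Nat.pair n j, ?_⟩
  have h1 : h (Nat.pair n j) ≤ h j := by
    unfold h
    have : ((1:ℝ)/4) ^ (Nat.pair n j) ≤ (1/4) ^ j :=
      pow_le_pow_of_le_one (by norm_num) (by norm_num) (Nat.right_le_pair n j)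
    linarith
  have h2 : dist (c (Nat.pair n j)) (d (Nat.pair n j)) = h (Nat.pair n j) := by
    unfold c
    rw [dist_eq_norm, add_sub_cancel_left, norm_smul, norm_e0, Real.norm_eq_abs, abs_of_pos (h_pos _),
      mul_one]
  have h3 : dist (d (Nat.pair n j)) x < ε / 2 := by
    unfold d
    rw [Nat.unpair_pair, dist_comm]
    exact hn
  calc dist (c (Nat.pair n j)) x ≤ dist (c (Nat.pair n j)) (d (Nat.pair n j)) + dist (d (Nat.pair n j)) x :=
        dist_triangle _ _ _
    _ < ε := by rw [h2]; linarith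

lemma coord_bound {x : E} {k : ℕ} (hx : ‖x - c k‖ < h k / 4) : 3 * h k / 4 < x 0 ∧ x 0 < 5 * h k / 4 := by
  have h1 := (abs_coord_le (x - c k) 0).trans_lt hx
  have h2 : (x - c k) 0 = x 0 - h k := by simp [c_zero]
  rw [h2, abs_lt] at h1
  constructor <;> linarith [h1.1, h1.2]

/-- At every point at most one block is active. -/
lemma one_active (x : E) : ∃ k, ∀ j, j ≠ k → h j / 4 ≤ ‖x - c j‖ := by
  by_cases hx : ∃ k, ‖x - c k‖ < h k / 4
  · obtain ⟨k, hk⟩ := hx
    refine ⟨k, fun j hj => ?_⟩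
    by_contra hc
    push Not at hc
    have b1 := coord_bound hk
    have b2 := coord_bound hc
    rcases lt_or_gt_of_ne hj with hlt | hlt
    · have := h_anti hlt; linarith [h_pos j]
    · have := h_anti hlt; linarith [h_pos k]
  · push Not at hx
    exact ⟨0, fun j _ => hx j⟩

/-- Off the hyperplane the family of blocks is locally a single block. -/
lemma locally_one {x : E} (hx : x 0 ≠ 0) : ∃ k, ∀ᶠ y in 𝓝 x, ∀ j, j ≠ k → h j / 4 ≤ ‖y - c j‖ := by
  have hU : ∀ᶠ y : E in 𝓝 x, |y 0 - x 0| < |x 0| / 8 := by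
    have hc : Continuous fun y : E => |y 0 - x 0| :=
      (((EuclideanSpace.proj (𝕜 := ℝ) (0 : Fin 5)).continuous).sub continuous_const).abs
    have : (fun y : E => |y 0 - x 0|) x < |x 0| / 8 := by
      simp only [sub_self, abs_zero]
      have := abs_pos.mpr hx
      linarith
    exact hc.continuousAt.eventually_lt continuousAt_const this
  by_cases hk : ∃ k, ∃ y : E, |y 0 - x 0| < |x 0| / 8 ∧ ‖y - c k‖ < h k / 4
  · obtain ⟨k, y, hy1, hy2⟩ := hk
    refine ⟨k, hU.mono fun z hz j hj => ?_⟩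
    by_contra hc
    push Not at hc
    have b1 := coord_bound hy2
    have b2 := coord_bound hc
    have hp1 := h_pos k
    have hp2 := h_pos j
    have hx0 : 0 < x 0 := by
      by_contra hneg
      push Not at hneg
      rw [abs_of_nonpos hneg, abs_lt] at hy1
      linarith [hy1.1, hy1.2]
    rw [abs_of_pos hx0, abs_lt] at hy1 hz
    rcases lt_or_gt_of_ne hj with hlt | hlt
    · have := h_anti hlt; linarith [hy1.1, hy1.2, hz.1, hz.2]
    · have := h_anti hlt; linarith [hy1.1, hy1.2, hz.1, hz.2]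
  · push Not at hk
    exact ⟨0, hU.mono fun z hz j _ => hk j z hz⟩

/-- the rescaling map of a block -/
def z (k : ℕ) (x : E) : E := (r k)⁻¹ • (x - c k)

lemma norm_z (k : ℕ) (x : E) : ‖z k x‖ = (r k)⁻¹ * ‖x - c k‖ := by
  unfold z; rw [norm_smul, norm_inv, Real.norm_eq_abs, abs_of_pos (r_pos k)]

lemma z_far' {k : ℕ} {x : E} (hx : h k / 4 ≤ ‖x - c k‖) : 2 * rho ≤ ‖z k x‖ := by
  rw [norm_z, ← r_rho] at *
  have := r_pos k
  rw [← div_eq_inv_mul, le_div_iff₀ this]
  linarith
lemma z_far {k : ℕ} {x : E} (hx : h k / 4 ≤ ‖x - c k‖) : rho ≤ ‖z k x‖ := by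
  linarith [z_far' hx, rho_pos]

/-- the blocks -/
def uk (k : ℕ) (x : E) : ℝ := r k * u0 (z k x)
/-- the fluxes of the blocks -/
def Fk (k : ℕ) (x : E) : E := F 1 (z k x)
/-- the densities of the blocks -/
def fk (k : ℕ) (x : E) : ℝ := - ((r k)⁻¹ * dv 1 (z k x))

lemma uk_zero {k : ℕ} {x : E} (hx : h k / 4 ≤ ‖x - c k‖) : uk k x = 0 := by
  unfold uk; rw [u0_zero (z_far hx), mul_zero]
lemma Fk_zero {k : ℕ} {x : E} (hx : h k / 4 ≤ ‖x - c k‖) : Fk k x = 0 := F_zero 1 (z_far hx)
lemma fk_zero {k : ℕ} {x : E} (hx : h k / 4 ≤ ‖x - c k‖) : fk k x = 0 := by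
  unfold fk; rw [dv_zero 1 (by linarith [z_far' hx, rho_pos])]; simp

lemma uk_hasFDerivAt (k : ℕ) (x : E) : HasFDerivAt (uk k) (innerSL ℝ (P (z k x))) x := by
  have hz : HasFDerivAt (z k) ((r k)⁻¹ • ContinuousLinearMap.id ℝ E) x := by
    unfold z
    exact ((hasFDerivAt_id x).sub_const (c k)).const_smul ((r k)⁻¹)
  have h1 := ((u0_hasFDerivAt (z k x)).comp x hz).const_smul (r k)
  refine h1.congr_fderiv ?_
  ext v
  have := (r_pos k).ne'
  simp
  field_simp

lemma uk_lip (k : ℕ) : LipschitzWith 1 (uk k) := by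
  apply lipschitzWith_of_nnnorm_fderiv_le (𝕜 := ℝ) (fun x => (uk_hasFDerivAt k x).differentiableAt)
  intro x
  rw [(uk_hasFDerivAt k x).fderiv, ← NNReal.coe_le_coe, coe_nnnorm, innerSL_apply_norm]
  exact P_norm_le _

/-- gluing two Lipschitz functions along a hyperplane -/
lemma add_lip {a b : E → ℝ} (ha : LipschitzWith 1 a) (hb : LipschitzWith 1 b) {τ : ℝ}
    (ha0 : ∀ x : E, x 0 ≤ τ → a x = 0) (hb0 : ∀ x : E, τ ≤ x 0 → b x = 0) :
    LipschitzWith 1 (fun x => a x + b x) := by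
  have key : ∀ x y : E, x 0 ≤ τ → τ ≤ y 0 → |a x + b x - (a y + b y)| ≤ ‖x - y‖ := by
    intro x y hx hy
    rw [ha0 x hx, hb0 y hy]
    rcases eq_or_lt_of_le (hx.trans hy) with he | hlt
    · have h1 : b x = 0 := hb0 x (by linarith)
      have h2 : a y = 0 := ha0 y (by linarith)
      rw [h1, h2]; simp
    · set t := (τ - x 0) / (y 0 - x 0) with ht
      have ht0 : 0 ≤ t := div_nonneg (by linarith) (by linarith)
      have ht1 : t ≤ 1 := by rw [ht, div_le_one (by linarith)]; linarith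
      set w : E := x + t • (y - x) with hw
      have hw0 : w 0 = τ := by
        have : w 0 = x 0 + t * (y 0 - x 0) := by simp [hw]
        rw [this, ht, div_mul_cancel₀ _ (by linarith)]; ring
      have e1 : |b x - b w| ≤ t * ‖x - y‖ := by
        have := hb.dist_le_mul x w
        rw [Real.dist_eq, dist_eq_norm, NNReal.coe_one, one_mul] at this
        refine this.trans (le_of_eq ?_)
        rw [hw, sub_add_cancel_left, norm_neg, norm_smul, Real.norm_eq_abs, abs_of_nonneg ht0,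
          norm_sub_rev]
      have e2 : |a y - a w| ≤ (1 - t) * ‖x - y‖ := by
        have := ha.dist_le_mul y w
        rw [Real.dist_eq, dist_eq_norm, NNReal.coe_one, one_mul] at this
        refine this.trans (le_of_eq ?_)
        have : y - w = (1 - t) • (y - x) := by rw [hw, sub_smul, one_smul]; abel
        rw [this, norm_smul, Real.norm_eq_abs, abs_of_nonneg (by linarith), norm_sub_rev]
      rw [hb0 w hw0.ge, sub_zero] at e1
      rw [ha0 w hw0.le, sub_zero] at e2
      calc |0 + b x - (a y + 0)| ≤ |b x| + |a y| := by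
            rw [zero_add, add_zero]; exact abs_sub _ _
        _ ≤ t * ‖x - y‖ + (1 - t) * ‖x - y‖ := add_le_add e1 e2
        _ = ‖x - y‖ := by ring
  apply LipschitzWith.of_dist_le_mul
  intro x y
  rw [Real.dist_eq, dist_eq_norm, NNReal.coe_one, one_mul]
  rcases le_total (x 0) τ with hx | hx <;> rcases le_total (y 0) τ with hy | hy
  · rw [ha0 x hx, ha0 y hy, zero_add, zero_add]
    have := hb.dist_le_mul x y
    rwa [Real.dist_eq, dist_eq_norm, NNReal.coe_one, one_mul] at this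
  · exact key x y hx hy
  · rw [abs_sub_comm, norm_sub_rev]; exact key y x hy hx
  · rw [hb0 x hx, hb0 y hy, add_zero, add_zero]
    have := ha.dist_le_mul x y
    rwa [Real.dist_eq, dist_eq_norm, NNReal.coe_one, one_mul] at this

lemma partial_lip (n : ℕ) : LipschitzWith 1 (fun x => ∑ k ∈ Finset.range n, uk k x) := by
  induction n with
  | zero => simpa using LipschitzWith.const' (0:ℝ) (α := E) (K := 1)
  | succ n ih =>
    have := add_lip (τ := 5 * h n / 4) ih (uk_lip n) ?_ ?_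
    · simpa [Finset.sum_range_succ] using this
    · intro x hx
      apply Finset.sum_eq_zero
      intro k hk
      apply uk_zero
      by_contra hc
      push Not at hc
      have b := coord_bound hc
      have := h_anti (Finset.mem_range.mp hk)
      linarith [h_pos k]
    · intro x hx
      apply uk_zero
      by_contra hc
      push Not at hc
      have b := coord_bound hc
      linarith

/-- the glued function -/
def u (x : E) : ℝ := ∑' k, uk k x
/-- its flux -/
def Fu (x : E) : E := ∑' k, Fk k x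
/-- the density of the source -/
def f (x : E) : ℝ := ∑' k, fk k x

lemma u_eq {x : E} {k : ℕ} (hk : ∀ j, j ≠ k → h j / 4 ≤ ‖x - c j‖) : u x = uk k x :=
  tsum_eq_single k fun j hj => uk_zero (hk j hj)
lemma Fu_eq {x : E} {k : ℕ} (hk : ∀ j, j ≠ k → h j / 4 ≤ ‖x - c j‖) : Fu x = Fk k x :=
  tsum_eq_single k fun j hj => Fk_zero (hk j hj)

lemma f_eq {x : E} {k : ℕ} (hk : ∀ j, j ≠ k → h j / 4 ≤ ‖x - c j‖) : f x = fk k x :=
  tsum_eq_single k fun j hj => fk_zero (hk j hj)

lemma u_eq_partial (x : E) : ∃ k, ∀ n, k < n → u x = ∑ k ∈ Finset.range n, uk k x := by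
  obtain ⟨k, hk⟩ := one_active x
  refine ⟨k, fun n hn => ?_⟩
  rw [u_eq hk, Finset.sum_eq_single k]
  · intro j _ hj; exact uk_zero (hk j hj)
  · intro hc; exact absurd (Finset.mem_range.mpr hn) hc

lemma u_lip : LipschitzWith 1 u := by
  apply LipschitzWith.of_dist_le_mul
  intro x y
  obtain ⟨k, hk⟩ := u_eq_partial x
  obtain ⟨l, hl⟩ := u_eq_partial y
  rw [hk (max k l + 1) (by omega), hl (max k l + 1) (by omega)]
  exact (partial_lip _).dist_le_mul x y

lemma u_hasFDerivAt {x : E} {k : ℕ} (hk : ∀ᶠ y in 𝓝 x, ∀ j, j ≠ k → h j / 4 ≤ ‖y - c j‖) :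
    HasFDerivAt u (innerSL ℝ (P (z k x))) x := by
  refine (uk_hasFDerivAt k x).congr_of_eventuallyEq ?_
  filter_upwards [hk] with y hy
  exact u_eq hy

lemma far_out {x : E} (hx : 3/4 ≤ ‖x‖) (k : ℕ) : h k / 4 ≤ ‖x - c k‖ := by
  have h1 := norm_c_le k
  have h2 := h_le k
  have h3 : ‖x‖ - ‖c k‖ ≤ ‖x - c k‖ := norm_sub_norm_le x (c k)
  linarith

lemma u_out {x : E} (hx : 3/4 ≤ ‖x‖) : u x = 0 := by
  rw [u_eq (k := 0) fun j _ => far_out hx j, uk_zero (far_out hx 0)]
lemma Fu_out {x : E} (hx : 3/4 ≤ ‖x‖) : Fu x = 0 := by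
  rw [Fu_eq (k := 0) fun j _ => far_out hx j, Fk_zero (far_out hx 0)]

lemma f_out {x : E} (hx : 3/4 ≤ ‖x‖) : f x = 0 := by
  rw [f_eq (k := 0) fun j _ => far_out hx j, fk_zero (far_out hx 0)]

end Pool.Agent.R510.LS
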