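import Pool.Agent.R510.LS.Block2

open MeasureTheory Set Filter Topology Metric
open scoped ContDiff RealInnerProductSpace

noncomputable section
namespace Pool.Agent.R510.LS

/-- `1 - l² |P|²` -/
def Q (l : ℝ) (x : E) : ℝ := 1 - l ^ 2 * ‖P x‖ ^ 2
/-- the flux with parameter `l` -/
def F (l : ℝ) (x : E) : E := (l * (√(Q l x))⁻¹) • P x
/-- its derivative -/
def dF (l : ℝ) (x v : E) : E :=
  (l * (√(Q l x))⁻¹) • fderiv ℝ P x v +
    (l ^ 3 * (⟪P x, fderiv ℝ P x v⟫ : ℝ) * ((√(Q l x))⁻¹) ^ 3) • P x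
/-- its divergence -/
def dv (l : ℝ) (x : E) : ℝ := ∑ i : Fin 5, (dF l x (EuclideanSpace.single i 1)) i

lemma P_diff (x : E) : HasFDerivAt P (fderiv ℝ P x) x :=
  ((P_smooth.differentiable (by simp)) x).hasFDerivAt

lemma Q_hasFDerivAt (l : ℝ) (x : E) :
    HasFDerivAt (Q l) (-(l ^ 2 • ((2:ℝ) • (innerSL ℝ (P x)).comp (fderiv ℝ P x)))) x := by
  have h1 : HasFDerivAt (fun y => ‖P y‖ ^ 2) ((2:ℝ) • (innerSL ℝ (P x)).comp (fderiv ℝ P x)) x := by
    refine (P_diff x).norm_sq.congr_fderiv ?_
    ext v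
    simp [two_mul]
  have h2 := (h1.const_smul (l ^ 2)).const_sub 1
  exact h2

lemma sq_hasDerivAt {y : ℝ} (hy : 0 < y) :
    HasDerivAt (fun y : ℝ => (√y)⁻¹) (-(1/2) * ((√y)⁻¹) ^ 3) y := by
  have h := (Real.hasDerivAt_sqrt hy.ne').inv (Real.sqrt_pos.mpr hy).ne'
  refine h.congr_deriv ?_
  have : √y ≠ 0 := (Real.sqrt_pos.mpr hy).ne'
  field_simp

lemma F_hasFDerivAt {l : ℝ} {x : E} (h : 0 < Q l x) :
    ∃ D : E →L[ℝ] E, HasFDerivAt (F l) D x ∧ ∀ v, D v = dF l x v := by
  have h1 := (sq_hasDerivAt h).comp_hasFDerivAt x (Q_hasFDerivAt l x)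
  have h2 := (h1.const_smul l).smul (P_diff x)
  refine ⟨_, h2, fun v => ?_⟩
  simp only [dF, ContinuousLinearMap.add_apply, ContinuousLinearMap.smul_apply,
    ContinuousLinearMap.smulRight_apply, ContinuousLinearMap.neg_apply, ContinuousLinearMap.comp_apply,
    innerSL_apply_apply, smul_eq_mul]
  congr 1
  congr 1
  ring

lemma Q_pos_of_lt {l : ℝ} (h0 : 0 ≤ l) (h1 : l < 1) (x : E) : 0 < Q l x := by
  unfold Q
  have h := P_norm_le x
  have h2 : ‖P x‖ ^ 2 ≤ 1 := by nlinarith [norm_nonneg (P x)]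
  have h3 : l ^ 2 < 1 := by nlinarith
  nlinarith [sq_nonneg l, sq_nonneg (‖P x‖)]

lemma F_smooth {l : ℝ} (h0 : 0 ≤ l) (h1 : l < 1) : ContDiff ℝ ∞ (F l) := by
  unfold F
  have hQ : ContDiff ℝ ∞ (Q l) := contDiff_const.sub (contDiff_const.mul (P_smooth.norm_sq ℝ))
  have hs : ContDiff ℝ ∞ (fun x => √(Q l x)) := hQ.sqrt fun x => (Q_pos_of_lt h0 h1 x).ne'
  exact (contDiff_const.mul (hs.inv fun x => (Real.sqrt_pos.mpr (Q_pos_of_lt h0 h1 x)).ne')).smul P_smooth

lemma F_zero (l : ℝ) {x : E} (h : rho ≤ ‖x‖) : F l x = 0 := by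
  unfold F; rw [P_zero h, smul_zero]

lemma F_compact (l : ℝ) : HasCompactSupport (F l) := by
  apply HasCompactSupport.intro (isCompact_closedBall (0:E) rho)
  intro x hx
  apply F_zero
  rw [mem_closedBall, dist_zero_right, not_le] at hx
  exact hx.le

lemma dP_zero {x : E} (h : rho < ‖x‖) : fderiv ℝ P x = 0 := by
  have : P =ᶠ[𝓝 x] fun _ => 0 := by
    have ho : IsOpen {x : E | rho < ‖x‖} := isOpen_lt continuous_const continuous_norm
    filter_upwards [ho.mem_nhds h] with y hy
    exact P_zero (le_of_lt hy)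
  rw [this.fderiv_eq]; simp

lemma dv_zero (l : ℝ) {x : E} (h : rho < ‖x‖) : dv l x = 0 := by
  unfold dv dF
  rw [dP_zero h]; simp

/-- expansion of a linear form in coordinates -/
lemma apply_eq_sum (T : E →L[ℝ] ℝ) (w : E) :
    T w = ∑ i : Fin 5, T (EuclideanSpace.single i 1) * w i := by
  conv_lhs => rw [← (EuclideanSpace.basisFun (Fin 5) ℝ).sum_repr w]
  rw [map_sum]
  apply Finset.sum_congr rfl
  intro i _
  rw [map_smul, EuclideanSpace.basisFun_apply, EuclideanSpace.basisFun_repr, smul_eq_mul, mul_comm]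

/-- Integration by parts for the regularized flux. -/
lemma ibp_reg {l : ℝ} (h0 : 0 ≤ l) (h1 : l < 1) {psi : E → ℝ} {C : NNReal} (hp : LipschitzWith C psi) :
    ∫ x, fderiv ℝ psi x (F l x) = - ∫ x, dv l x * psi x := by
  have hsm := F_smooth h0 h1
  have hcomp : ∀ i : Fin 5, ContDiff ℝ ∞ (fun x => F l x i) := fun i =>
    (EuclideanSpace.proj (𝕜 := ℝ) i).contDiff.comp hsm
  have hcs : ∀ i : Fin 5, HasCompactSupport (fun x => F l x i) := fun i =>
    (F_compact l).comp_left (g := fun w : E => w i) (by simp)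
  have hlip : ∀ i : Fin 5, ∃ D, LipschitzWith D (fun x => F l x i) := fun i =>
    ContDiff.lipschitzWith_of_hasCompactSupport (hcs i) (hcomp i) (by simp)
  have hae : ∀ᵐ x : E, fderiv ℝ psi x (F l x) =
      ∑ i : Fin 5, lineDeriv ℝ psi x (EuclideanSpace.single i 1) * (F l x i) := by
    filter_upwards [hp.ae_differentiableAt] with x hx
    rw [apply_eq_sum]
    apply Finset.sum_congr rfl
    intro i _
    rw [hx.lineDeriv_eq_fderiv]
  rw [integral_congr_ae hae, integral_finset_sum]
  · rw [← integral_neg]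
    have : ∀ i : Fin 5, ∫ x, lineDeriv ℝ psi x (EuclideanSpace.single i 1) * (F l x i) =
        ∫ x, -((dF l x (EuclideanSpace.single i 1)) i * psi x) := by
      intro i
      obtain ⟨D, hD⟩ := hlip i
      rw [LipschitzWith.integral_lineDeriv_mul_eq hp hD (hcs i)]
      congr 1
      ext x
      obtain ⟨T, hT, hTv⟩ := F_hasFDerivAt (Q_pos_of_lt h0 h1 x)
      have hT' : HasFDerivAt (fun x => F l x i) ((EuclideanSpace.proj (𝕜 := ℝ) i).comp T) x :=
        (EuclideanSpace.proj (𝕜 := ℝ) i).hasFDerivAt.comp x hT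
      rw [hT'.differentiableAt.lineDeriv_eq_fderiv, hT'.fderiv, map_neg]
      simp [hTv]
    rw [Finset.sum_congr rfl fun i _ => this i, ← integral_finset_sum]
    · congr 1
      ext x
      rw [Finset.sum_neg_distrib, ← Finset.sum_mul]
      rfl
    · intro i _
      obtain ⟨D, hD⟩ := hlip i
      have hd : Continuous fun x => (dF l x (EuclideanSpace.single i 1)) i := by
        have hP := P_smooth.continuous
        have hdP : Continuous fun x => fderiv ℝ P x (EuclideanSpace.single i 1) :=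
          (P_smooth.continuous_fderiv (by simp)).clm_apply continuous_const
        have hQc : Continuous (Q l) := continuous_const.sub (continuous_const.mul (hP.norm.pow 2))
        have hs : Continuous fun x => (√(Q l x))⁻¹ := (Real.continuous_sqrt.comp hQc).inv₀
          fun x => (Real.sqrt_pos.mpr (Q_pos_of_lt h0 h1 x)).ne'
        have : Continuous fun x => dF l x (EuclideanSpace.single i 1) := by
          unfold dF
          exact ((continuous_const.mul hs).smul hdP).add
            (((continuous_const.mul (hP.inner hdP)).mul (hs.pow 3)).smul hP)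
        exact (EuclideanSpace.proj (𝕜 := ℝ) i).continuous.comp this
      apply Integrable.neg
      apply Continuous.integrable_of_hasCompactSupport (hd.mul hp.continuous)
      apply HasCompactSupport.intro (isCompact_closedBall (0:E) rho)
      intro x hx
      rw [mem_closedBall, dist_zero_right, not_le] at hx
      have : dF l x (EuclideanSpace.single i 1) = 0 := by
        unfold dF; rw [dP_zero hx]; simp
      show (dF l x (EuclideanSpace.single i 1)) i * psi x = 0
      rw [this]; simp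
  · intro i _
    have h2 : Integrable (fun x => F l x i) :=
      (hcomp i).continuous.integrable_of_hasCompactSupport (hcs i)
    exact h2.bdd_mul (aestronglyMeasurable_lineDeriv hp.continuous _)
      (.of_forall fun x => norm_lineDeriv_le_of_lipschitz ℝ hp)

end Pool.Agent.R510.LS
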