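import Pool.Agent.R510.LS.Block2

open MeasureTheory Set Filter Topology Metric
open scoped ContDiff RealInnerProductSpace

noncomputable section
namespace Pool.Agent.R510.LS

lemma int_pow : IntegrableOn (fun t : ℝ => |t| ^ (-(3:ℝ)/4)) (Icc (-rho) rho) := by
  have h : IntervalIntegrable (fun t : ℝ => |t| ^ (-(3:ℝ)/4)) volume (-rho) rho := by
    apply intervalIntegrable_of_even
    · intro x; rw [abs_neg]
    · intro x hx
      have h1 : IntervalIntegrable (fun t : ℝ => t ^ (-(3:ℝ)/4)) volume 0 x :=
        intervalIntegral.intervalIntegrable_rpow' (by norm_num)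
      refine h1.congr ?_
      intro t ht
      rw [uIoc_of_le hx.le] at ht
      simp only [abs_of_pos ht.1]
    · exact enorm_ne_top
    · exact enorm_ne_top
  rw [intervalIntegrable_iff_integrableOn_Icc_of_le (by linarith [rho_pos])] at h
  exact h

/-- The one-dimensional majorants. -/
def ph (i : Fin 5) (t : ℝ) : ℝ :=
  if i = 0 then (Icc (-rho) rho).indicator (fun _ => (1:ℝ)) t
  else (Icc (-rho) rho).indicator (fun t : ℝ => |t| ^ (-(3:ℝ)/4)) t

lemma int_ph (i : Fin 5) : Integrable (ph i) := by
  unfold ph
  by_cases h : i = 0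
  · simp only [h, if_true]
    rw [integrable_indicator_iff measurableSet_Icc]
    exact integrableOn_const (by simp)
  · simp only [h, if_false]
    rw [integrable_indicator_iff measurableSet_Icc]
    exact int_pow

lemma int_prod : Integrable (fun x : E => ∏ i, ph i (x i)) := by
  have h : Integrable (fun x : Fin 5 → ℝ => ∏ i, ph i (x i)) := Integrable.fintype_prod int_ph
  have h2 := (PiLp.volume_preserving_ofLp (Fin 5)).integrable_comp_of_integrable h
  exact h2

/-- The cubic majorant. -/
def H (x : E) : ℝ := (closedBall (0:E) rho).indicator (fun x => ((√(c0 * N x))⁻¹) ^ 3) x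

lemma coord_ne : ∀ᵐ x : E, ∀ i : Fin 5, x i ≠ 0 := by
  rw [ae_all_iff]
  intro i
  have h : ∀ᵐ x : Fin 5 → ℝ, x i ≠ 0 := by
    have := Measure.ae_eval_ne (μ := fun _ : Fin 5 => (volume : Measure ℝ)) i (0:ℝ)
    exact this
  exact (PiLp.volume_preserving_ofLp (Fin 5)).quasiMeasurePreserving.ae h

lemma N_pos_ae : ∀ᵐ x : E, 0 < N x := by
  filter_upwards [coord_ne] with x hx
  have h1 := coord_le_N x 0
  have h2 : 0 < (x (Fin.succ 0)) ^ 2 := by have := hx (Fin.succ 0); positivity
  linarith

lemma abs_coord_le (x : E) (i : Fin 5) : |x i| ≤ ‖x‖ := by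
  have := PiLp.norm_apply_le x i
  simpa using this

lemma H_le {x : E} (hx : ∀ i : Fin 5, x i ≠ 0) : H x ≤ ((√c0)⁻¹) ^ 3 * ∏ i, ph i (x i) := by
  have hc := c0_pos
  unfold H
  by_cases hb : x ∈ closedBall (0:E) rho
  · rw [indicator_of_mem hb]
    rw [mem_closedBall, dist_zero_right] at hb
    have hN : 0 < N x := by
      have h1 := coord_le_N x 0
      have h2 : 0 < (x (Fin.succ 0)) ^ 2 := by have := hx (Fin.succ 0); positivity
      linarith
    have hmem : ∀ i, x i ∈ Icc (-rho) rho := by
      intro i
      have := (abs_coord_le x i).trans hb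
      exact abs_le.mp this
    rw [Real.sqrt_mul hc.le, mul_inv, mul_pow]
    apply mul_le_mul_of_nonneg_left _ (by positivity)
    rw [Fin.prod_univ_succ]
    have h0 : ph 0 (x 0) = 1 := by simp [ph, indicator_of_mem (hmem 0)]
    rw [h0, one_mul]
    have hs : 0 < √(N x) := Real.sqrt_pos.mpr hN
    have key : ((√(N x))⁻¹) ^ 3 = ∏ _i : Fin 4, ((√(N x))⁻¹) ^ ((3:ℝ)/4) := by
      rw [Finset.prod_const, Finset.card_univ, Fintype.card_fin, ← Real.rpow_natCast (_ ^ _) 4,
        ← Real.rpow_mul (by positivity), ← Real.rpow_natCast _ 3]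
      norm_num
    rw [key]
    apply Finset.prod_le_prod
    · intro i _; positivity
    · intro i _
      have hi : ph i.succ (x i.succ) = |x i.succ| ^ (-(3:ℝ)/4) := by
        simp [ph, indicator_of_mem (hmem i.succ), Fin.succ_ne_zero]
      rw [hi]
      have ha : 0 < |x i.succ| := abs_pos.mpr (hx _)
      have hle : |x i.succ| ≤ √(N x) := by
        rw [← Real.sqrt_sq_eq_abs]
        exact Real.sqrt_le_sqrt (coord_le_N x i)
      rw [neg_div, Real.rpow_neg ha.le, ← Real.inv_rpow ha.le]
      apply Real.rpow_le_rpow (by positivity) _ (by norm_num)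
      exact inv_anti₀ ha hle
  · rw [indicator_of_notMem hb]
    apply mul_nonneg (by positivity)
    apply Finset.prod_nonneg
    intro i _
    unfold ph
    split_ifs
    · apply indicator_nonneg; intro t _; norm_num
    · apply indicator_nonneg; intro t _; positivity

lemma H_nonneg (x : E) : 0 ≤ H x := by
  unfold H; apply indicator_nonneg; intro t _; positivity

lemma N_cont : Continuous N := N_smooth.continuous

lemma H_meas : Measurable H := by
  unfold H
  apply Measurable.indicator _ isClosed_closedBall.measurableSet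
  exact ((Real.continuous_sqrt.measurable.comp (N_cont.measurable.const_mul c0)).inv).pow_const 3

lemma H_int : Integrable H := by
  refine (int_prod.const_mul (((√c0)⁻¹) ^ 3)).mono' H_meas.aestronglyMeasurable ?_
  filter_upwards [coord_ne] with x hx
  rw [Real.norm_eq_abs, abs_of_nonneg (H_nonneg x)]
  exact H_le hx

end Pool.Agent.R510.LS
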