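import Pool.Agent.R510.LS.IBP
import Pool.Agent.R510.LS.Int

open MeasureTheory Set Filter Topology Metric
open scoped ContDiff RealInnerProductSpace

noncomputable section
namespace Pool.Agent.R510.LS

lemma Q_ge {l : ℝ} (h0 : 0 ≤ l) (h1 : l ≤ 1) {x : E} (hx : ‖x‖ ≤ rho) : c0 * N x ≤ Q l x := by
  unfold Q
  have h := P_bound hx
  have h3 : l ^ 2 ≤ 1 := by nlinarith
  nlinarith [sq_nonneg (‖P x‖)]

lemma Q_le_one (l : ℝ) (x : E) : Q l x ≤ 1 := by
  unfold Q; nlinarith [sq_nonneg (l * ‖P x‖)]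

lemma Q1_pos {x : E} (hN : 0 < N x) : 0 < Q 1 x := by
  rcases le_total rho ‖x‖ with h | h
  · unfold Q; rw [P_zero h]; simp
  · exact lt_of_lt_of_le (mul_pos c0_pos hN) (Q_ge zero_le_one le_rfl h)

/-- bound of the derivative of `P` -/
lemma dP_bdd : ∃ M : ℝ, 0 ≤ M ∧ ∀ x : E, ‖fderiv ℝ P x‖ ≤ M := by
  have hc : HasCompactSupport P := by
    apply HasCompactSupport.intro (isCompact_closedBall (0:E) rho)
    intro x hx
    apply P_zero
    rw [mem_closedBall, dist_zero_right, not_le] at hx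
    exact hx.le
  obtain ⟨C, hC⟩ := (P_smooth.continuous_fderiv (by simp)).bounded_above_of_compact_support
    (hc.fderiv ℝ)
  exact ⟨C, (norm_nonneg _).trans (hC 0), hC⟩

/-- auxiliary estimate for the inverse square root -/
lemma s_bound {l : ℝ} (h0 : 0 ≤ l) (h1 : l ≤ 1) {x : E} (hx : ‖x‖ ≤ rho) (hN : 0 < N x) :
    0 < (√(Q l x))⁻¹ ∧ (√(Q l x))⁻¹ ≤ ((√(c0 * N x))⁻¹) ^ 3 ∧
      ((√(Q l x))⁻¹) ^ 3 ≤ ((√(c0 * N x))⁻¹) ^ 3 := by
  have hc : 0 < c0 * N x := mul_pos c0_pos hN
  have hQ := Q_ge h0 h1 hx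
  have hQ0 : 0 < Q l x := lt_of_lt_of_le hc hQ
  have h2 : 0 < √(c0 * N x) := Real.sqrt_pos.mpr hc
  have h3 : √(c0 * N x) ≤ √(Q l x) := Real.sqrt_le_sqrt hQ
  have h4 : √(Q l x) ≤ 1 := by
    have := Real.sqrt_le_sqrt (Q_le_one l x); rwa [Real.sqrt_one] at this
  have h5 : (√(Q l x))⁻¹ ≤ (√(c0 * N x))⁻¹ := inv_anti₀ h2 h3
  have h6 : 1 ≤ (√(c0 * N x))⁻¹ := (one_le_inv₀ h2).mpr (h3.trans h4)
  have h7 : 0 < (√(Q l x))⁻¹ := inv_pos.mpr (Real.sqrt_pos.mpr hQ0)
  refine ⟨h7, ?_, pow_le_pow_left₀ h7.le h5 3⟩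
  nlinarith [sq_nonneg ((√(c0 * N x))⁻¹ - 1), mul_nonneg (sub_nonneg.mpr h6) (sub_nonneg.mpr h6)]

lemma F_le {l : ℝ} (h0 : 0 ≤ l) (h1 : l ≤ 1) {x : E} (hN : 0 < N x) : ‖F l x‖ ≤ H x := by
  rcases lt_or_ge rho ‖x‖ with h | h
  · rw [F_zero l h.le, norm_zero]; exact H_nonneg x
  · obtain ⟨a, b, _⟩ := s_bound h0 h1 h hN
    unfold F H
    rw [indicator_of_mem (by simpa using h), norm_smul, norm_mul, Real.norm_eq_abs, Real.norm_eq_abs,
      abs_of_nonneg h0, abs_of_pos a]
    have := P_norm_le x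
    have h8 : l * (√(Q l x))⁻¹ ≤ (√(Q l x))⁻¹ := by nlinarith
    calc l * (√(Q l x))⁻¹ * ‖P x‖ ≤ (√(Q l x))⁻¹ * 1 :=
          mul_le_mul h8 this (norm_nonneg _) a.le
      _ ≤ _ := by rw [mul_one]; exact b

lemma dv_le {M : ℝ} (hM0 : 0 ≤ M) (hM : ∀ x : E, ‖fderiv ℝ P x‖ ≤ M) {l : ℝ} (h0 : 0 ≤ l) (h1 : l ≤ 1)
    {x : E} (hN : 0 < N x) : |dv l x| ≤ (10 * M) * H x := by
  rcases lt_or_ge rho ‖x‖ with h | h
  · rw [dv_zero l h, abs_zero]; exact mul_nonneg (by positivity) (H_nonneg x)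
  · obtain ⟨a, b, c⟩ := s_bound h0 h1 h hN
    have hH : H x = ((√(c0 * N x))⁻¹) ^ 3 := by
      unfold H; rw [indicator_of_mem (by simpa using h)]
    have hterm : ∀ i : Fin 5, |(dF l x (EuclideanSpace.single i 1)) i| ≤ (2 * M) * H x := by
      intro i
      refine (abs_coord_le _ i).trans ?_
      set e : E := EuclideanSpace.single i 1 with he
      have hne : ‖e‖ = 1 := by simp [he]
      have hDe : ‖fderiv ℝ P x e‖ ≤ M := by
        have := (fderiv ℝ P x).le_of_opNorm_le (hM x) e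
        rwa [hne, mul_one] at this
      have hPx := P_norm_le x
      have hin : |(⟪P x, fderiv ℝ P x e⟫ : ℝ)| ≤ M := by
        refine (abs_real_inner_le_norm _ _).trans ?_
        calc ‖P x‖ * ‖fderiv ℝ P x e‖ ≤ 1 * M := mul_le_mul hPx hDe (norm_nonneg _) zero_le_one
          _ = M := one_mul M
      unfold dF
      refine (norm_add_le _ _).trans ?_
      rw [norm_smul, norm_smul, norm_mul, norm_mul, norm_mul, Real.norm_eq_abs, Real.norm_eq_abs,
        Real.norm_eq_abs, Real.norm_eq_abs, Real.norm_eq_abs, abs_of_nonneg h0, abs_of_pos a,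
        abs_of_nonneg (pow_nonneg h0 3), abs_of_pos (pow_pos a 3), hH]
      have hl3 : l ^ 3 ≤ 1 := pow_le_one₀ h0 h1
      have t1 : l * (√(Q l x))⁻¹ * ‖fderiv ℝ P x e‖ ≤ ((√(c0 * N x))⁻¹) ^ 3 * M := by
        apply mul_le_mul _ hDe (norm_nonneg _) (by positivity)
        calc l * (√(Q l x))⁻¹ ≤ 1 * (√(Q l x))⁻¹ := mul_le_mul_of_nonneg_right h1 a.le
          _ ≤ _ := by rw [one_mul]; exact b
      have t2 : l ^ 3 * |(⟪P x, fderiv ℝ P x e⟫ : ℝ)| * ((√(Q l x))⁻¹) ^ 3 * ‖P x‖ ≤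
          (1 * M) * ((√(c0 * N x))⁻¹) ^ 3 * 1 := by
        apply mul_le_mul _ hPx (norm_nonneg _) (by positivity)
        apply mul_le_mul _ c (by positivity) (by positivity)
        exact mul_le_mul hl3 hin (abs_nonneg _) zero_le_one
      linarith
    unfold dv
    refine (Finset.abs_sum_le_sum_abs _ _).trans ?_
    refine (Finset.sum_le_sum fun i _ => hterm i).trans ?_
    simp; linarith

lemma F_meas (l : ℝ) : Measurable (F l) := by
  have hP := P_smooth.continuous
  have hQc : Continuous (Q l) := continuous_const.sub (continuous_const.mul (hP.norm.pow 2))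
  unfold F
  exact ((measurable_const.mul (Real.continuous_sqrt.comp hQc).measurable.inv)).smul hP.measurable

lemma dv_meas (l : ℝ) : Measurable (dv l) := by
  have hP := P_smooth.continuous
  have hQc : Continuous (Q l) := continuous_const.sub (continuous_const.mul (hP.norm.pow 2))
  have hs : Measurable fun x => (√(Q l x))⁻¹ := (Real.continuous_sqrt.comp hQc).measurable.inv
  unfold dv
  apply Finset.measurable_sum
  intro i _
  have hdP : Continuous fun x => fderiv ℝ P x (EuclideanSpace.single i 1) :=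
    (P_smooth.continuous_fderiv (by simp)).clm_apply continuous_const
  have : Measurable fun x => dF l x (EuclideanSpace.single i 1) := by
    unfold dF
    exact ((measurable_const.mul hs).smul hdP.measurable).add
      (((measurable_const.mul (hP.inner hdP).measurable).mul (hs.pow_const 3)).smul hP.measurable)
  exact (EuclideanSpace.proj (𝕜 := ℝ) i).continuous.measurable.comp this

lemma F_int : Integrable (F 1) := by
  refine H_int.mono' (F_meas 1).aestronglyMeasurable ?_
  filter_upwards [N_pos_ae] with x hx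
  exact F_le zero_le_one le_rfl hx

lemma dv_int : Integrable (dv 1) := by
  obtain ⟨M, hM0, hM⟩ := dP_bdd
  refine (H_int.const_mul (10 * M)).mono' (dv_meas 1).aestronglyMeasurable ?_
  filter_upwards [N_pos_ae] with x hx
  exact dv_le hM0 hM zero_le_one le_rfl hx

lemma Q_cont_l (x : E) : Continuous fun l : ℝ => Q l x := by
  unfold Q; fun_prop

lemma s_tendsto {x : E} (hN : 0 < N x) {ls : ℕ → ℝ} (hls : Tendsto ls atTop (𝓝 1)) :
    Tendsto (fun n => (√(Q (ls n) x))⁻¹) atTop (𝓝 (√(Q 1 x))⁻¹) := by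
  apply Tendsto.inv₀
  · exact (Real.continuous_sqrt.tendsto _).comp (((Q_cont_l x).tendsto 1).comp hls)
  · exact (Real.sqrt_pos.mpr (Q1_pos hN)).ne'

lemma F_tendsto {x : E} (hN : 0 < N x) {ls : ℕ → ℝ} (hls : Tendsto ls atTop (𝓝 1)) :
    Tendsto (fun n => F (ls n) x) atTop (𝓝 (F 1 x)) := by
  unfold F
  exact (hls.mul (s_tendsto hN hls)).smul_const _

lemma dv_tendsto {x : E} (hN : 0 < N x) {ls : ℕ → ℝ} (hls : Tendsto ls atTop (𝓝 1)) :
    Tendsto (fun n => dv (ls n) x) atTop (𝓝 (dv 1 x)) := by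
  unfold dv
  apply tendsto_finset_sum
  intro i _
  have : Tendsto (fun n => dF (ls n) x (EuclideanSpace.single i 1)) atTop
      (𝓝 (dF 1 x (EuclideanSpace.single i 1))) := by
    unfold dF
    have hs := s_tendsto hN hls
    exact ((hls.mul hs).smul_const _).add ((((hls.pow 3).mul_const _).mul (hs.pow 3)).smul_const _)
  exact ((EuclideanSpace.proj (𝕜 := ℝ) i).continuous.tendsto _).comp this

/-- Integration by parts for the flux of the block function. -/
theorem ibp {psi : E → ℝ} {C : NNReal} (hp : LipschitzWith C psi) :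
    ∫ x, fderiv ℝ psi x (F 1 x) = - ∫ x, dv 1 x * psi x := by
  obtain ⟨M, hM0, hM⟩ := dP_bdd
  set ls : ℕ → ℝ := fun n => 1 - 1 / ((n:ℝ) + 1) with hls
  have hl0 : ∀ n, 0 ≤ ls n := by
    intro n
    have : 1 / ((n:ℝ) + 1) ≤ 1 := by
      rw [div_le_one (by positivity)]; linarith [Nat.cast_nonneg (α := ℝ) n]
    simp only [hls]; linarith
  have hl1 : ∀ n, ls n < 1 := by
    intro n
    have : 0 < 1 / ((n:ℝ) + 1) := by positivity
    simp only [hls]; linarith
  have hlt : Tendsto ls atTop (𝓝 1) := by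
    have := (tendsto_const_nhds (x := (1:ℝ))).sub tendsto_one_div_add_atTop_nhds_zero_nat
    simpa [hls] using this
  -- bound of psi on the ball
  obtain ⟨K, hK⟩ : ∃ K : ℝ, ∀ x ∈ closedBall (0:E) rho, ‖psi x‖ ≤ K :=
    (isCompact_closedBall (0:E) rho).exists_bound_of_continuousOn hp.continuous.continuousOn
  have hK0 : 0 ≤ K := (norm_nonneg _).trans (hK 0 (by simp [rho_pos.le]))
  have A : Tendsto (fun n => ∫ x, fderiv ℝ psi x (F (ls n) x)) atTop
      (𝓝 (∫ x, fderiv ℝ psi x (F 1 x))) := by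
    apply tendsto_integral_of_dominated_convergence (fun x => (C:ℝ) * H x)
    · intro n
      have h1 : Measurable fun x => fderiv ℝ psi x := measurable_fderiv ℝ psi
      have h2 : Measurable fun x => fderiv ℝ psi x (F (ls n) x) := by
        have := (isBoundedBilinearMap_apply (𝕜 := ℝ) (E := E) (F := ℝ)).continuous.measurable.comp
          (h1.prodMk (F_meas (ls n)))
        exact this
      exact h2.aestronglyMeasurable
    · exact H_int.const_mul _
    · intro n
      filter_upwards [N_pos_ae] with x hx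
      calc ‖fderiv ℝ psi x (F (ls n) x)‖ ≤ ‖fderiv ℝ psi x‖ * ‖F (ls n) x‖ :=
            (fderiv ℝ psi x).le_opNorm _
        _ ≤ C * H x := mul_le_mul (norm_fderiv_le_of_lipschitz ℝ hp)
            (F_le (hl0 n) (hl1 n).le hx) (norm_nonneg _) C.2
    · filter_upwards [N_pos_ae] with x hx
      exact ((fderiv ℝ psi x).continuous.tendsto _).comp (F_tendsto hx hlt)
  have B' : Tendsto (fun n => ∫ x, dv (ls n) x * psi x) atTop (𝓝 (∫ x, dv 1 x * psi x)) := by
    apply tendsto_integral_of_dominated_convergence (fun x => (10 * M * H x) * K)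
    · intro n
      exact ((dv_meas (ls n)).mul hp.continuous.measurable).aestronglyMeasurable
    · exact (H_int.const_mul _).mul_const _
    · intro n
      filter_upwards [N_pos_ae] with x hx
      rcases lt_or_ge rho ‖x‖ with h | h
      · rw [dv_zero _ h, zero_mul, norm_zero]
        exact mul_nonneg (mul_nonneg (by positivity) (H_nonneg x)) hK0
      · rw [norm_mul]
        exact mul_le_mul (dv_le hM0 hM (hl0 n) (hl1 n).le hx) (hK x (by simpa using h))
          (norm_nonneg _) (mul_nonneg (by positivity) (H_nonneg x))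
    · filter_upwards [N_pos_ae] with x hx
      exact (dv_tendsto hx hlt).mul_const _
  have hE : (fun n => ∫ x, fderiv ℝ psi x (F (ls n) x)) = fun n => - ∫ x, dv (ls n) x * psi x :=
    funext fun n => ibp_reg (hl0 n) (hl1 n) hp
  rw [hE] at A
  exact tendsto_nhds_unique A B'.neg

end Pool.Agent.R510.LS
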