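import Pool.Agent.R510.LS.Min

open MeasureTheory Set Filter Topology Metric
open scoped ContDiff RealInnerProductSpace

noncomputable section
namespace Pool.Agent.R510.LS

lemma coord_ne_const (i : Fin 5) (a : ℝ) : ∀ᵐ x : E, x i ≠ a := by
  have h : ∀ᵐ x : Fin 5 → ℝ, x i ≠ a := by
    have := Measure.ae_eval_ne (μ := fun _ : Fin 5 => (volume : Measure ℝ)) i a
    exact this
  exact (PiLp.volume_preserving_ofLp (Fin 5)).quasiMeasurePreserving.ae h

lemma N_z_pos : ∀ᵐ x : E, ∀ k, 0 < N (z k x) := by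
  rw [ae_all_iff]
  intro k
  filter_upwards [coord_ne_const (Fin.succ 0) ((c k) (Fin.succ 0))] with x hx
  have h1 := coord_le_N (z k x) 0
  have h2 : (z k x) (Fin.succ 0) = (r k)⁻¹ * (x (Fin.succ 0) - (c k) (Fin.succ 0)) := by
    unfold z; simp
  have h3 : (z k x) (Fin.succ 0) ≠ 0 := by
    rw [h2]
    exact mul_ne_zero (inv_ne_zero (r_pos k).ne') (sub_ne_zero.mpr hx)
  have h4 : 0 < ((z k x) (Fin.succ 0)) ^ 2 := by positivity
  linarith

/-- the integrand of the area part -/
def Gf (v : E → ℝ) (x : E) : ℝ := 1 - √(1 - ‖fderiv ℝ v x‖ ^ 2)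

lemma Gf_meas (v : E → ℝ) : Measurable (Gf v) := by
  unfold Gf
  have h1 : Measurable fun x => ‖fderiv ℝ v x‖ := (measurable_fderiv ℝ v).norm
  exact measurable_const.sub (Real.continuous_sqrt.measurable.comp (measurable_const.sub (h1.pow_const 2)))

lemma Gf_int (v : E → ℝ) : IntegrableOn (Gf v) Om := by
  refine Measure.integrableOn_of_bounded (M := 1) (by simp [measure_ball_lt_top.ne]) 
    (Gf_meas v).aestronglyMeasurable ?_
  apply Eventually.of_forall
  intro x
  unfold Gf
  have h1 : √(1 - ‖fderiv ℝ v x‖ ^ 2) ≤ 1 := by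
    have := Real.sqrt_le_sqrt (show 1 - ‖fderiv ℝ v x‖ ^ 2 ≤ 1 by nlinarith [sq_nonneg ‖fderiv ℝ v x‖])
    rwa [Real.sqrt_one] at this
  have h2 := Real.sqrt_nonneg (1 - ‖fderiv ℝ v x‖ ^ 2)
  rw [Real.norm_eq_abs, abs_le]
  constructor <;> linarith

lemma vb_bdd {v : E → ℝ} (hv : IsAdmissible Om 0 v) (x : E) : |vb v x| ≤ 2 := by
  rcases lt_or_ge ‖x‖ 1 with hx | hx
  · have h1 := adm_le hv hx (y := e0) (by rw [norm_e0])
    rw [vb_in v hx]
    refine h1.trans ((norm_sub_le _ _).trans ?_)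
    rw [norm_e0]; linarith
  · rw [vb_out v hx]; simp

lemma u_eq_vb : vb u = u := by
  funext x
  rcases lt_or_ge ‖x‖ 1 with hx | hx
  · exact vb_in u hx
  · rw [vb_out u hx, u_out (by linarith)]

/-- pointwise inequality, almost everywhere in the ball -/
lemma pt {v : E → ℝ} (hv : IsAdmissible Om 0 v) :
    ∀ᵐ x : E, x ∈ Om →
      (fderiv ℝ (fun y => vb v y - u y) x (Fu x) ≤ Gf v x - Gf u x ∧
       (Gf v x - Gf u x - fderiv ℝ (fun y => vb v y - u y) x (Fu x) = 0 →
        fderiv ℝ (fun y => vb v y - u y) x = 0)) := by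
  filter_upwards [N_z_pos, coord_ne_const 0 0, (vb_lip hv).ae_differentiableAt] with x hN h0 hd hx
  obtain ⟨k, hk⟩ := locally_one h0
  have hu := u_hasFDerivAt hk
  have hk0 := hk.self_of_nhds
  have hFu : Fu x = (√(1 - ‖P (z k x)‖ ^ 2))⁻¹ • P (z k x) := by
    rw [Fu_eq hk0]; unfold Fk F Q
    simp
  have hlt : ‖P (z k x)‖ < 1 := by
    have := Q1_pos (hN k)
    unfold Q at this
    nlinarith [norm_nonneg (P (z k x))]
  have hvx : fderiv ℝ v x = fderiv ℝ (vb v) x := by
    apply Filter.EventuallyEq.fderiv_eq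
    filter_upwards [isOpen_ball.mem_nhds hx] with y hy
    exact (vb_in v (by simpa using hy)).symm
  have hb : ‖fderiv ℝ (vb v) x‖ ≤ 1 := by
    simpa using norm_fderiv_le_of_lipschitz ℝ (vb_lip hv) (x₀ := x)
  have hpsi : fderiv ℝ (fun y => vb v y - u y) x = fderiv ℝ (vb v) x - innerSL ℝ (P (z k x)) :=
    (hd.hasFDerivAt.sub hu).fderiv
  obtain ⟨g1, g2⟩ := G_ineq hlt hb
  unfold Gf
  rw [hpsi, hFu, hvx, hu.fderiv]
  refine ⟨g1, fun he => ?_⟩
  rw [g2 he, sub_self]

lemma psi_lip {v : E → ℝ} (hv : IsAdmissible Om 0 v) : LipschitzWith (1 + 1) (fun y => vb v y - u y) :=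
  (vb_lip hv).sub u_lip

lemma psi_bdd {v : E → ℝ} (hv : IsAdmissible Om 0 v) (x : E) : |vb v x - u x| ≤ 4 := by
  have h1 := vb_bdd hv x
  have h2 := vb_bdd u_adm x
  rw [u_eq_vb] at h2
  calc |vb v x - u x| ≤ |vb v x| + |u x| := abs_sub _ _
    _ ≤ 4 := by linarith

lemma setInt_Fu {v : E → ℝ} : ∫ x in Om, fderiv ℝ (fun y => vb v y - u y) x (Fu x) =
    ∫ x, fderiv ℝ (fun y => vb v y - u y) x (Fu x) := by
  apply setIntegral_eq_integral_of_forall_compl_eq_zero
  intro x hx
  rw [mem_ball_zero_iff, not_lt] at hx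
  rw [Fu_out (by linarith), map_zero]

lemma setInt_f {v : E → ℝ} : ∫ x in Om, f x * (vb v x - u x) = ∫ x, f x * (vb v x - u x) := by
  apply setIntegral_eq_integral_of_forall_compl_eq_zero
  intro x hx
  rw [mem_ball_zero_iff, not_lt] at hx
  rw [f_out (by linarith), zero_mul]

lemma fv_int {v : E → ℝ} (hv : IsAdmissible Om 0 v) : Integrable fun x => f x * vb v x := by
  refine (f_int.norm.mul_const 2).mono' (f_meas.mul (vb_lip hv).continuous.measurable).aestronglyMeasurable ?_
  apply Eventually.of_forall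
  intro x
  rw [norm_mul]
  exact mul_le_mul_of_nonneg_left (vb_bdd hv x) (norm_nonneg _)

lemma dpsi_int {v : E → ℝ} (hv : IsAdmissible Om 0 v) :
    Integrable fun x => fderiv ℝ (fun y => vb v y - u y) x (Fu x) := by
  have h1 : Measurable fun x => fderiv ℝ (fun y => vb v y - u y) x := measurable_fderiv ℝ _
  have hm : Measurable fun x => fderiv ℝ (fun y => vb v y - u y) x (Fu x) :=
    (isBoundedBilinearMap_apply (𝕜 := ℝ) (E := E) (F := ℝ)).continuous.measurable.comp
      (h1.prodMk Fu_meas)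
  refine (Fu_int.norm.const_mul ((1 + 1 : NNReal) : ℝ)).mono' hm.aestronglyMeasurable ?_
  apply Eventually.of_forall
  intro x
  exact ((fderiv ℝ _ x).le_opNorm _).trans
      (mul_le_mul_of_nonneg_right (norm_fderiv_le_of_lipschitz ℝ (psi_lip hv)) (norm_nonneg _))

/-- difference of the actions -/
lemma action_diff {v : E → ℝ} (hv : IsAdmissible Om 0 v) :
    action Om f v - action Om f u =
      ∫ x in Om, (Gf v x - Gf u x - fderiv ℝ (fun y => vb v y - u y) x (Fu x)) := by
  have e1 : ∫ x in Om, f x * v x = ∫ x in Om, f x * vb v x := by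
    apply setIntegral_congr_fun measurableSet_ball
    intro x hx
    simp only [vb_in v (by simpa using hx : ‖x‖ < 1)]
  have i1 : IntegrableOn (fun x => f x * vb v x) Om := (fv_int hv).integrableOn
  have i2 : IntegrableOn (fun x => f x * u x) Om := by
    have := (fv_int u_adm).integrableOn (s := Om)
    rwa [u_eq_vb] at this
  have e2 : ∫ x in Om, f x * (vb v x - u x) = (∫ x in Om, f x * vb v x) - ∫ x in Om, f x * u x := by
    rw [← integral_sub i1 i2]
    congr 1
    ext x; ring
  have e3 : ∫ x in Om, (Gf v x - Gf u x - fderiv ℝ (fun y => vb v y - u y) x (Fu x)) =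
      (∫ x in Om, Gf v x) - (∫ x in Om, Gf u x) -
        ∫ x in Om, fderiv ℝ (fun y => vb v y - u y) x (Fu x) := by
    have h3 : IntegrableOn (fun x => Gf v x - Gf u x) Om := (Gf_int v).sub (Gf_int u)
    rw [integral_sub h3 (dpsi_int hv).integrableOn, integral_sub (Gf_int v) (Gf_int u)]
  rw [e3, setInt_Fu, ibp_all (psi_lip hv) (psi_bdd hv), ← setInt_f, e2]
  unfold action
  rw [e1]
  unfold Gf
  ring

lemma u_min {v : E → ℝ} (hv : IsAdmissible Om 0 v) : action Om f u ≤ action Om f v := by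
  have h1 := action_diff hv
  have h2 : 0 ≤ ∫ x in Om, (Gf v x - Gf u x - fderiv ℝ (fun y => vb v y - u y) x (Fu x)) := by
    apply setIntegral_nonneg_of_ae_restrict
    rw [EventuallyLE, ae_restrict_iff' measurableSet_ball]
    filter_upwards [pt hv] with x hx hm
    have := (hx hm).1
    simp only [Pi.zero_apply]
    linarith
  linarith

/-- A Lipschitz function vanishing outside the ball and with a.e. vanishing derivative vanishes. -/
lemma zero_of_deriv {psi : E → ℝ} {C : NNReal} (hp : LipschitzWith C psi)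
    (hout : ∀ x, 1 ≤ ‖x‖ → psi x = 0) {K : ℝ} (hK : ∀ x, |psi x| ≤ K)
    (hd : ∀ᵐ x, fderiv ℝ psi x = 0) : ∀ x, psi x = 0 := by
  have hK0 : 0 ≤ K := (abs_nonneg _).trans (hK 0)
  set gg : E → ℝ := fun x => ⟪e0, x⟫ * psi x with hgg
  have hl : ∀ x : E, |(⟪e0, x⟫ : ℝ)| ≤ ‖x‖ := fun x => by
    have := abs_real_inner_le_norm e0 x
    rwa [norm_e0, one_mul] at this
  have key : ∀ x y : E, ‖x‖ ≤ 1 → |gg x - gg y| ≤ (C + K) * ‖x - y‖ := by
    intro x y hx
    have e : gg x - gg y = ⟪e0, x⟫ * (psi x - psi y) + ⟪e0, x - y⟫ * psi y := by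
      simp only [hgg, inner_sub_right]; ring
    rw [e]
    have h1 : |psi x - psi y| ≤ C * ‖x - y‖ := by
      have := hp.dist_le_mul x y
      rwa [Real.dist_eq, dist_eq_norm] at this
    calc |(⟪e0, x⟫ : ℝ) * (psi x - psi y) + ⟪e0, x - y⟫ * psi y|
        ≤ |(⟪e0, x⟫ : ℝ)| * |psi x - psi y| + |(⟪e0, x - y⟫ : ℝ)| * |psi y| := by
          rw [← abs_mul, ← abs_mul]; exact abs_add_le _ _
      _ ≤ 1 * (C * ‖x - y‖) + ‖x - y‖ * K := by
          apply add_le_add
          · exact mul_le_mul ((hl x).trans hx) h1 (abs_nonneg _) zero_le_one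
          · exact mul_le_mul (hl _) (hK y) (abs_nonneg _) (norm_nonneg _)
      _ = (C + K) * ‖x - y‖ := by ring
  have hglip : LipschitzWith (C + K.toNNReal) gg := by
    apply LipschitzWith.of_dist_le_mul
    intro x y
    rw [Real.dist_eq, dist_eq_norm, NNReal.coe_add, Real.coe_toNNReal K hK0]
    rcases le_total ‖x‖ 1 with hx | hx
    · exact key x y hx
    · rcases le_total ‖y‖ 1 with hy | hy
      · rw [abs_sub_comm, norm_sub_rev]; exact key y x hy
      · simp only [hgg, hout x hx, hout y hy, mul_zero, sub_zero, abs_zero]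
        have := C.2
        positivity
  have hgc : HasCompactSupport gg := by
    apply HasCompactSupport.intro (isCompact_closedBall (0:E) 1)
    intro x hx
    rw [mem_closedBall, dist_zero_right, not_le] at hx
    simp only [hgg, hout x hx.le, mul_zero]
  have h := LipschitzWith.integral_lineDeriv_mul_eq (μ := (volume : Measure E)) hp hglip hgc e0
  have hL : ∫ x, lineDeriv ℝ psi x e0 * gg x = 0 := by
    rw [← integral_zero E ℝ (μ := volume)]
    apply integral_congr_ae
    filter_upwards [hd, hp.ae_differentiableAt] with x hx hx2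
    rw [hx2.lineDeriv_eq_fderiv, hx]; simp
  have hR : ∫ x, lineDeriv ℝ gg x (-e0) * psi x = ∫ x, -(psi x ^ 2) := by
    apply integral_congr_ae
    filter_upwards [hd, hp.ae_differentiableAt] with x hx hx2
    have h2 : HasFDerivAt (fun y : E => (⟪e0, y⟫ : ℝ)) (innerSL ℝ e0) x := (innerSL ℝ e0).hasFDerivAt
    have h3 := h2.mul hx2.hasFDerivAt
    have h4 : HasFDerivAt gg (⟪e0, x⟫ • fderiv ℝ psi x + psi x • innerSL ℝ e0) x := h3
    rw [h4.differentiableAt.lineDeriv_eq_fderiv, h4.fderiv, hx]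
    simp only [smul_zero, zero_add, ContinuousLinearMap.smul_apply, innerSL_apply_apply, inner_neg_right,
      inner_e0_self, smul_eq_mul]
    ring
  rw [hL, hR, integral_neg] at h
  have h0 : ∫ x, psi x ^ 2 = 0 := by linarith
  have hcs : HasCompactSupport fun x => psi x ^ 2 := by
    apply HasCompactSupport.intro (isCompact_closedBall (0:E) 1)
    intro x hx
    rw [mem_closedBall, dist_zero_right, not_le] at hx
    simp only [hout x hx.le]; norm_num
  have hint : Integrable fun x => psi x ^ 2 :=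
    (hp.continuous.pow 2).integrable_of_hasCompactSupport hcs
  have h1 := (integral_eq_zero_iff_of_nonneg (fun x => sq_nonneg (psi x)) hint).mp h0
  have h2 : (fun x => psi x ^ 2) = fun _ => 0 :=
    (hp.continuous.pow 2).ae_eq_iff_eq volume continuous_const |>.mp h1
  intro x
  have := congrFun h2 x
  simpa using this

lemma u_unique {v : E → ℝ} (hv : IsAdmissible Om 0 v) (hle : action Om f v ≤ action Om f u) :
    EqOn v u Om := by
  have h1 := action_diff hv
  set G : E → ℝ := fun x => Gf v x - Gf u x - fderiv ℝ (fun y => vb v y - u y) x (Fu x) with hG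
  have hnn : 0 ≤ᵐ[volume.restrict Om] G := by
    rw [EventuallyLE, ae_restrict_iff' measurableSet_ball]
    filter_upwards [pt hv] with x hx hm
    have := (hx hm).1
    simp only [Pi.zero_apply, hG]
    linarith
  have hint : IntegrableOn G Om := ((Gf_int v).sub (Gf_int u)).sub (dpsi_int hv).integrableOn
  have hz : ∫ x in Om, G x = 0 := by
    have : 0 ≤ ∫ x in Om, G x := setIntegral_nonneg_of_ae_restrict hnn
    linarith
  have hz2 : G =ᵐ[volume.restrict Om] 0 := (integral_eq_zero_iff_of_nonneg_ae hnn hint).mp hz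
  rw [EventuallyEq, ae_restrict_iff' measurableSet_ball] at hz2
  have hd : ∀ᵐ x : E, fderiv ℝ (fun y => vb v y - u y) x = 0 := by
    have hsph : ∀ᵐ x : E, x ∉ sphere (0:E) 1 :=
      measure_eq_zero_iff_ae_notMem.mp (Measure.addHaar_sphere volume (0:E) 1)
    filter_upwards [hz2, pt hv, hsph] with x hx1 hx2 hx3
    rcases lt_or_ge ‖x‖ 1 with hx | hx
    · have hm : x ∈ Om := by simpa using hx
      exact (hx2 hm).2 (hx1 hm)
    · have hlt : 1 < ‖x‖ := lt_of_le_of_ne hx (fun h => hx3 (by simpa using h.symm))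
      have ho : IsOpen {x : E | 1 < ‖x‖} := isOpen_lt continuous_const continuous_norm
      have : (fun y => vb v y - u y) =ᶠ[𝓝 x] fun _ => 0 := by
        filter_upwards [ho.mem_nhds hlt] with y hy
        have hy' : 1 ≤ ‖y‖ := le_of_lt hy
        rw [vb_out v hy', u_out (by linarith)]; simp
      rw [this.fderiv_eq]; simp
  have hzero := zero_of_deriv (psi_lip hv) (fun x hx => by rw [vb_out v hx, u_out (by linarith)]; simp)
    (psi_bdd hv) hd
  intro x hx
  have := hzero x
  rw [vb_in v (by simpa using hx)] at this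
  linarith

end Pool.Agent.R510.LS
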