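import Pool.Agent.R510.LS.Ana
import Pool.Agent.R510.LS.Defs

open MeasureTheory Set Filter Topology Metric
open scoped ContDiff RealInnerProductSpace

noncomputable section
namespace Pool.Agent.R510.LS

/-- the unit ball -/
abbrev Om : Set E := ball (0:E) 1

lemma seg_frontier {x y : E} (hx : ‖x‖ < 1) (hy : 1 ≤ ‖y‖) :
    ∃ t0 : ℝ, 0 < t0 ∧ t0 ≤ 1 ∧ ‖x + t0 • (y - x)‖ = 1 ∧ ∀ t : ℝ, 0 ≤ t → t < t0 → ‖x + t • (y - x)‖ < 1 := by
  have hc : Continuous fun t : ℝ => ‖x + t • (y - x)‖ := by fun_prop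
  have h0 : (fun t : ℝ => ‖x + t • (y - x)‖) 0 < 1 := by simpa using hx
  have h1 : 1 ≤ (fun t : ℝ => ‖x + t • (y - x)‖) 1 := by simpa using hy
  have ivt : ∀ s : ℝ, 0 ≤ s → 1 ≤ ‖x + s • (y - x)‖ → ∃ t ∈ Icc 0 s, ‖x + t • (y - x)‖ = 1 := by
    intro s hs hs1
    exact intermediate_value_Icc hs hc.continuousOn ⟨h0.le, hs1⟩
  set T : Set ℝ := Icc 0 1 ∩ (fun t : ℝ => ‖x + t • (y - x)‖) ⁻¹' {1} with hT
  have hTc : IsCompact T := isCompact_Icc.inter_right (isClosed_singleton.preimage hc)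
  have hTn : T.Nonempty := by
    obtain ⟨t, ht, ht1⟩ := ivt 1 zero_le_one h1
    exact ⟨t, ht, ht1⟩
  obtain ⟨t0, ht0⟩ := hTc.exists_isLeast hTn
  have hmem := ht0.1
  have hne : t0 ≠ 0 := by
    intro h
    have := hmem.2
    rw [h] at this
    exact absurd this h0.ne
  refine ⟨t0, lt_of_le_of_ne hmem.1.1 (Ne.symm hne), hmem.1.2, hmem.2, fun t ht htt => ?_⟩
  by_contra hcon
  push Not at hcon
  obtain ⟨s, hs, hs1⟩ := ivt t ht hcon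
  have : t0 ≤ s := ht0.2 ⟨⟨hs.1, hs.2.trans (htt.le.trans hmem.1.2)⟩, hs1⟩
  linarith [hs.2]

lemma adm_le {v : E → ℝ} (hv : IsAdmissible Om 0 v) {x y : E} (hx : ‖x‖ < 1) (hy : 1 ≤ ‖y‖) :
    |v x| ≤ ‖x - y‖ := by
  obtain ⟨t0, ht0, ht1, hn, hlt⟩ := seg_frontier hx hy
  set b : E := x + t0 • (y - x) with hb
  have hbf : b ∈ frontier Om := by
    rw [frontier_ball (0:E) one_ne_zero]; simpa using hn
  have hpt : ∀ t : ℝ, b + t • (x - b) = x + ((1 - t) * t0) • (y - x) := by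
    intro t
    rw [hb]
    have : x - (x + t0 • (y - x)) = -(t0 • (y - x)) := by abel
    rw [this, smul_neg, smul_smul, mul_comm t t0, sub_mul, one_mul, sub_smul, mul_comm t t0]
    abel
  have hin : ∀ t ∈ Ioo (0:ℝ) 1, b + t • (x - b) ∈ Om := by
    intro t ht
    rw [hpt, mem_ball_zero_iff]
    apply hlt
    · exact mul_nonneg (by linarith [ht.2]) ht0.le
    · nlinarith [ht.1]
  have hlim := hv.2 b hbf (x - b) hin
  have hle : ∀ᶠ t in 𝓝[>] (0:ℝ), |v x - v (b + t • (x - b))| ≤ ‖x - b‖ := by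
    filter_upwards [Ioo_mem_nhdsGT (zero_lt_one' ℝ)] with t ht
    have hxm : x ∈ Om := by simpa using hx
    have := hv.1 x (b + t • (x - b)) ((convex_ball (0:E) 1).segment_subset hxm (hin t ht))
    refine this.trans ?_
    have e : x - (b + t • (x - b)) = (1 - t) • (x - b) := by rw [sub_smul, one_smul]; abel
    rw [e, norm_smul, Real.norm_eq_abs, abs_of_nonneg (by linarith [ht.2])]
    nlinarith [norm_nonneg (x - b), ht.1]
  have hlim2 : Tendsto (fun t : ℝ => |v x - v (b + t • (x - b))|) (𝓝[>] 0) (𝓝 |v x - 0|) :=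
    (tendsto_const_nhds.sub hlim).abs
  have h3 : |v x - 0| ≤ ‖x - b‖ := le_of_tendsto hlim2 hle
  rw [sub_zero] at h3
  refine h3.trans ?_
  have e2 : x - b = t0 • (x - y) := by
    rw [hb, ← neg_sub y x, smul_neg]; abel
  rw [e2, norm_smul, Real.norm_eq_abs, abs_of_pos ht0]
  nlinarith [norm_nonneg (x - y)]

/-- extension by zero -/
def vb (v : E → ℝ) : E → ℝ := Om.indicator v

lemma vb_in (v : E → ℝ) {x : E} (hx : ‖x‖ < 1) : vb v x = v x :=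
  indicator_of_mem (by simpa using hx) v
lemma vb_out (v : E → ℝ) {x : E} (hx : 1 ≤ ‖x‖) : vb v x = 0 :=
  indicator_of_notMem (by simpa using hx) v

lemma vb_lip {v : E → ℝ} (hv : IsAdmissible Om 0 v) : LipschitzWith 1 (vb v) := by
  apply LipschitzWith.of_dist_le_mul
  intro x y
  rw [Real.dist_eq, dist_eq_norm, NNReal.coe_one, one_mul]
  rcases lt_or_ge ‖x‖ 1 with hx | hx <;> rcases lt_or_ge ‖y‖ 1 with hy | hy
  · rw [vb_in v hx, vb_in v hy]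
    exact hv.1 x y ((convex_ball (0:E) 1).segment_subset (by simpa using hx) (by simpa using hy))
  · rw [vb_in v hx, vb_out v hy, sub_zero]
    exact adm_le hv hx hy
  · rw [vb_out v hx, vb_in v hy, zero_sub, abs_neg, norm_sub_rev]
    exact adm_le hv hy hx
  · rw [vb_out v hx, vb_out v hy, sub_zero, abs_zero]; exact norm_nonneg _

/-- The glued function is admissible. -/
lemma u_adm : IsAdmissible Om 0 u := by
  refine ⟨fun x y _ => ?_, fun x hx w _ => ?_⟩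
  · have := u_lip.dist_le_mul x y
    rwa [Real.dist_eq, dist_eq_norm, NNReal.coe_one, one_mul] at this
  · rw [frontier_ball (0:E) one_ne_zero, mem_sphere_zero_iff_norm] at hx
    have hc : Continuous fun t : ℝ => u (x + t • w) := u_lip.continuous.comp (by fun_prop)
    have := hc.tendsto 0
    have h0 : u (x + (0:ℝ) • w) = 0 := by
      rw [zero_smul, add_zero]; exact u_out (by rw [hx]; norm_num)
    rw [h0] at this
    exact this.mono_left nhdsWithin_le_nhds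

/-- the key inequality for the Lorentzian area integrand -/
lemma key_ineq {a b : E} (ha : ‖a‖ < 1) (hb : ‖b‖ ≤ 1) :
    √(1 - ‖a‖ ^ 2) * √(1 - ‖b‖ ^ 2) ≤ 1 - ⟪b, a⟫ ∧
      (√(1 - ‖a‖ ^ 2) * √(1 - ‖b‖ ^ 2) = 1 - ⟪b, a⟫ → b = a) := by
  have hab : (⟪b, a⟫ : ℝ) ≤ ‖b‖ * ‖a‖ := real_inner_le_norm b a
  have hA := norm_nonneg a
  have hB := norm_nonneg b
  have hprod : ‖b‖ * ‖a‖ < 1 := by nlinarith
  have hA2 : 0 ≤ 1 - ‖a‖ ^ 2 := by nlinarith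
  have hB2 : 0 ≤ 1 - ‖b‖ ^ 2 := by nlinarith
  have hsq : (√(1 - ‖a‖ ^ 2) * √(1 - ‖b‖ ^ 2)) ^ 2 = (1 - ‖a‖ ^ 2) * (1 - ‖b‖ ^ 2) := by
    rw [mul_pow, Real.sq_sqrt hA2, Real.sq_sqrt hB2]
  have hnn : 0 ≤ √(1 - ‖a‖ ^ 2) * √(1 - ‖b‖ ^ 2) := by positivity
  constructor
  · have h1 : √(1 - ‖a‖ ^ 2) * √(1 - ‖b‖ ^ 2) ≤ 1 - ‖b‖ * ‖a‖ := by
      apply le_of_sq_le_sq _ (by linarith)
      rw [hsq]
      nlinarith [sq_nonneg (‖a‖ - ‖b‖)]
    linarith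
  · intro he
    rw [he] at hsq
    have h2 : (1 - ‖b‖ * ‖a‖) ^ 2 ≤ (1 - (⟪b, a⟫ : ℝ)) ^ 2 := by
      apply pow_le_pow_left₀ (by linarith) (by linarith)
    rw [hsq] at h2
    have h3 : (‖a‖ - ‖b‖) ^ 2 ≤ 0 := by nlinarith
    have h4 : ‖a‖ = ‖b‖ := by
      have := pow_eq_zero_iff (two_ne_zero) |>.mp (le_antisymm h3 (sq_nonneg (‖a‖ - ‖b‖)))
      linarith
    rw [← h4] at hsq hab
    have h5 : 1 - (⟪b, a⟫ : ℝ) = 1 - ‖a‖ ^ 2 := by
      have : (1 - (⟪b, a⟫ : ℝ)) ^ 2 = (1 - ‖a‖ ^ 2) ^ 2 := by rw [hsq]; ring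
      rcases sq_eq_sq_iff_eq_or_eq_neg.mp this with h | h
      · exact h
      · nlinarith
    have h6 : ‖b - a‖ ^ 2 = 0 := by
      rw [norm_sub_sq_real, ← h4]; linarith
    have h7 : ‖b - a‖ = 0 := by simpa using h6
    exact sub_eq_zero.mp (norm_eq_zero.mp h7)

/-- the integrand inequality -/
lemma G_ineq {a : E} {b : E →L[ℝ] ℝ} (ha : ‖a‖ < 1) (hb : ‖b‖ ≤ 1) :
    (b - innerSL ℝ a) ((√(1 - ‖a‖ ^ 2))⁻¹ • a) ≤
      (1 - √(1 - ‖b‖ ^ 2)) - (1 - √(1 - ‖innerSL ℝ a‖ ^ 2)) ∧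
    ((1 - √(1 - ‖b‖ ^ 2)) - (1 - √(1 - ‖innerSL ℝ a‖ ^ 2)) -
      (b - innerSL ℝ a) ((√(1 - ‖a‖ ^ 2))⁻¹ • a) = 0 → b = innerSL ℝ a) := by
  set β : E := (InnerProductSpace.toDual ℝ E).symm b with hβ
  have hβn : ‖β‖ = ‖b‖ := by rw [hβ, LinearIsometryEquiv.norm_map]
  have hba : ∀ w, b w = ⟪β, w⟫ := fun w => by rw [hβ, InnerProductSpace.toDual_symm_apply]
  obtain ⟨k1, k2⟩ := key_ineq ha (hβn ▸ hb : ‖β‖ ≤ 1)
  have hs : 0 < √(1 - ‖a‖ ^ 2) := Real.sqrt_pos.mpr (by nlinarith [norm_nonneg a])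
  have hs2 : √(1 - ‖a‖ ^ 2) ^ 2 = 1 - ‖a‖ ^ 2 := Real.sq_sqrt (by nlinarith [norm_nonneg a])
  have hval : (b - innerSL ℝ a) ((√(1 - ‖a‖ ^ 2))⁻¹ • a) =
      (√(1 - ‖a‖ ^ 2))⁻¹ * ((⟪β, a⟫ : ℝ) - ‖a‖ ^ 2) := by
    rw [map_smul, smul_eq_mul, ContinuousLinearMap.sub_apply, hba, innerSL_apply_apply,
      real_inner_self_eq_norm_sq]
  rw [hval, innerSL_apply_norm, ← hβn]
  set s := √(1 - ‖a‖ ^ 2) with hsdef
  set t := √(1 - ‖β‖ ^ 2) with htdef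
  constructor
  · rw [inv_mul_le_iff₀ hs]
    nlinarith
  · intro he
    have h1 : s * ((1 - t) - (1 - s) - s⁻¹ * ((⟪β, a⟫ : ℝ) - ‖a‖ ^ 2)) = 0 := by rw [he, mul_zero]
    have h2 : s * (s⁻¹ * ((⟪β, a⟫ : ℝ) - ‖a‖ ^ 2)) = (⟪β, a⟫ : ℝ) - ‖a‖ ^ 2 := by
      rw [← mul_assoc, mul_inv_cancel₀ hs.ne', one_mul]
    have h3 : s * t = 1 - ⟪β, a⟫ := by
      rw [mul_sub, h2] at h1
      nlinarith
    have h4 := k2 h3
    ext w
    rw [hba, h4, innerSL_apply_apply]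

end Pool.Agent.R510.LS
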